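import Pool.Agent.Helper15.U5.TypeIII
import Pool.Agent.U5.Core

/-!
# `Good` implies `Outcome`
-/

set_option autoImplicit false

namespace Pool.Agent.Helper15.U5

open SimpleGraph Finset
open scoped Classical


lemma dl_eq {V : Type} (G : SimpleGraph V) (A : Finset V) : Pool.Agent.U5.dl G A = dl G A := rfl

lemma phi_eq (η : ℝ) (c1 n : ℕ) : Pool.Agent.U5.phi η c1 n = phi η (c1 : ℝ) n := by
  unfold Pool.Agent.U5.phi phi Pool.Agent.U5.psi
  by_cases h : c1 ≤ n
  · have h1 : (((n - c1 : ℕ) : ℕ) : ℝ) = (n : ℝ) - c1 := by rw [Nat.cast_sub h]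
    have h2 : (0 : ℝ) ≤ (n : ℝ) - c1 := by
      have : (c1 : ℝ) ≤ n := by exact_mod_cast h
      linarith
    rw [h1, max_eq_left h2]
  · have h1 : n - c1 = 0 := by omega
    have h2 : (n : ℝ) - c1 ≤ 0 := by
      have : (n : ℝ) ≤ c1 := by exact_mod_cast (not_le.mp h).le
      linarith
    rw [h1, max_eq_right h2]
    simp

lemma cst_of_prm {η : ℝ} {c1 : ℕ} (h : Pool.Agent.U5.Prm η c1) : Cst η (c1 : ℝ) :=
  ⟨h.pos, by exact_mod_cast h.ten, h.small⟩

variable {V : Type}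

lemma mem_act {H : SimpleGraph V} {S : Finset V} {s : V} :
    s ∈ Pool.Agent.U5.act H S ↔ s ∈ S ∧ ∃ x, H.Adj s x := by
  unfold Pool.Agent.U5.act
  rw [Finset.mem_filter]

/-- Reachability does not use isolated vertices. -/
lemma reach_induce (Q : SimpleGraph V) (S' : Finset V) (hiso : ∀ s ∈ S', ∀ x, ¬ Q.Adj s x)
    {x y : V} (p : Q.Walk x y) : ∀ (hx : x ∉ S') (hy : y ∉ S'),
      (Q.induce {v | v ∉ S'}).Reachable ⟨x, hx⟩ ⟨y, hy⟩ := by
  induction p with
  | nil => intro hx hy; exact Reachable.refl _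
  | @cons a b c hab p ih =>
    intro ha hc
    have hb : b ∉ S' := fun h => hiso b h a hab.symm
    have h1 : (Q.induce {v | v ∉ S'}).Adj ⟨a, ha⟩ ⟨b, hb⟩ := hab
    exact h1.reachable.trans (ih hb hc)

lemma exists_adj_of_reachable {Q : SimpleGraph V} {x y : V} (h : Q.Reachable x y) (hne : x ≠ y) :
    ∃ z, Q.Adj x z := by
  obtain ⟨p⟩ := h
  cases p with
  | nil => exact absurd rfl hne
  | cons hab _ => exact ⟨_, hab⟩

lemma support_avoid (H : SimpleGraph V) (C : Finset V) {x y : V} (p : (dl H C).Walk x y) :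
    x ∉ C → ∀ v ∈ p.support, v ∉ C := by
  induction p with
  | nil =>
    intro hx v hv
    rw [Walk.support_nil, List.mem_singleton] at hv
    rw [hv]; exact hx
  | @cons a b c hab p ih =>
    intro ha v hv
    rw [Walk.support_cons, List.mem_cons] at hv
    rcases hv with rfl | hv
    · exact ha
    · exact ih hab.2.2 v hv

lemma walk_induce (H : SimpleGraph V) (X : Finset V) {a b : ((X : Set V) : Type)}
    (p : (H.induce (X : Set V)).Walk a b) : ∃ q : H.Walk a.1 b.1, ∀ v ∈ q.support, v ∈ X := by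
  induction p with
  | @nil a =>
    refine ⟨Walk.nil, ?_⟩
    intro v hv
    rw [Walk.support_nil, List.mem_singleton] at hv
    rw [hv]
    exact a.2
  | @cons a b c hab p ih =>
    obtain ⟨q, hq⟩ := ih
    have h1 : H.Adj a.1 b.1 := hab
    refine ⟨Walk.cons h1 q, ?_⟩
    intro v hv
    rw [Walk.support_cons, List.mem_cons] at hv
    rcases hv with rfl | hv
    · exact a.2
    · exact hq v hv

variable [Fintype V]

lemma two_ned {B H : SimpleGraph V} (h : B ≤ H) : 2 * (Pool.Agent.U5.ned H B : ℤ) = tot H - tot B := by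
  unfold Pool.Agent.U5.ned
  have h1 : B.edgeSet ⊆ H.edgeSet := SimpleGraph.edgeSet_mono h
  have h2 := Set.ncard_sdiff_add_ncard_of_subset h1 (Set.toFinite _)
  have h3 := tot_eq H
  have h4 := tot_eq B
  rw [Nat.card_coe_set_eq] at h3 h4
  omega

omit [Fintype V] in
lemma base_eq {B H : SimpleGraph V} {S : Finset V} (hd : Pool.Agent.U5.Data B H S)
    (hnc : Pool.Agent.U5.NoChord B H S) : B = dl H S := by
  ext x y
  rw [dl_adj]
  constructor
  · intro h
    exact ⟨hd.le h, fun hx => hd.iso x hx y h, fun hy => hd.iso y hy x h.symm⟩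
  · rintro ⟨h1, h2, h3⟩
    exact hnc x y h2 h3 h1

lemma two_ned_S {B H : SimpleGraph V} {S : Finset V} (hd : Pool.Agent.U5.Data B H S)
    (hnc : Pool.Agent.U5.NoChord B H S) : 2 * (Pool.Agent.U5.ned H B : ℤ) = e2 H (Pool.Agent.U5.act H S) := by
  rw [two_ned hd.le]
  have h1 : e2 H S = e2 H (Pool.Agent.U5.act H S) := by
    refine e2_eq_of_subset H _ S (fun x hx => (mem_act.mp hx).1) ?_
    intro x hx hxa y hxy
    exact hxa (mem_act.mpr ⟨hx, y, hxy⟩)
  rw [← h1]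
  unfold e2
  rw [base_eq hd hnc]

lemma two_pot {B H : SimpleGraph V} {S : Finset V} (hd : Pool.Agent.U5.Data B H S)
    (hnc : Pool.Agent.U5.NoChord B H S) :
    2 * Pool.Agent.U5.pot B H S = e2 H (Pool.Agent.U5.act H S) - 6 * (Pool.Agent.U5.act H S).card := by
  unfold Pool.Agent.U5.pot
  rw [← two_ned_S hd hnc]
  ring

/-- (IH) -/
lemma ih_of_good {η : ℝ} {c1 : ℕ} {B H : SimpleGraph V} {S : Finset V}
    (hG : Pool.Agent.U5.Good η c1 B H S)
    (A' : Finset V) (hA : A' ⊆ Pool.Agent.U5.act H S) (hne : A'.Nonempty) (hneA : A' ≠ Pool.Agent.U5.act H S)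
    (hr : ∀ s ∈ Pool.Agent.U5.act H S, s ∉ A' → ∃ b, b ∉ S ∧ (dl H A').Reachable s b) :
    2 * phi η c1 A'.card + 6 * A'.card ≤ e2 H A' := by
  have hAS : A' ⊆ S := fun x hx => (mem_act.mp (hA hx)).1
  set S' : Finset V := S.filter fun s => s ∈ A' ∨ s ∉ Pool.Agent.U5.act H S with hS'
  have hmem : ∀ x, x ∈ S' ↔ x ∈ S ∧ (x ∈ A' ∨ x ∉ Pool.Agent.U5.act H S) := by
    intro x
    rw [hS', Finset.mem_filter]
  have hB : ∀ x y, B.Adj x y → x ∉ S := fun x y h hx => hG.data.iso x hx y h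
  have hle : B ≤ dl H A' := by
    intro x y h
    exact ⟨hG.data.le h, fun hx => hB x y h (hAS hx), fun hy => hB y x h.symm (hAS hy)⟩
  have hBS : B ≤ dl H S := by
    intro x y h
    exact ⟨hG.data.le h, hB x y h, hB y x h.symm⟩
  have hBne : B ≠ dl H A' := by
    intro h
    obtain ⟨a, ha, haA⟩ : ∃ a ∈ Pool.Agent.U5.act H S, a ∉ A' := by
      by_contra hcon
      push Not at hcon
      exact hneA (Finset.Subset.antisymm hA hcon)
    obtain ⟨b, hb, hreach⟩ := hr a ha haA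
    have haS := (mem_act.mp ha).1
    obtain ⟨y, hy⟩ := exists_adj_of_reachable hreach (fun h => hb (h ▸ haS))
    rw [← h] at hy
    exact hB a y hy haS
  have hQne : dl H A' ≠ H := by
    intro h
    obtain ⟨a, ha⟩ := hne
    obtain ⟨y, hy⟩ := (mem_act.mp (hA ha)).2
    rw [← h] at hy
    exact hy.2.1 ha
  have hiso : ∀ s ∈ S', ∀ x, ¬ (dl H A').Adj s x := by
    intro s hs x hsx
    rw [hmem] at hs
    rcases hs.2 with h | h
    · exact hsx.2.1 h
    · exact h (mem_act.mpr ⟨hs.1, x, hsx.1⟩)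
  obtain ⟨⟨b₀, hb₀⟩⟩ := hG.data.conn.nonempty
  have hb₀' : b₀ ∉ S := hb₀
  have hb₀S' : b₀ ∉ S' := fun h => hb₀' ((hmem b₀).mp h).1
  have hbase : ∀ x, x ∉ S → (dl H A').Reachable x b₀ := by
    intro x hx
    have h1 := hG.data.conn.preconnected ⟨x, hx⟩ ⟨b₀, hb₀⟩
    have h2 := h1.map (SimpleGraph.Embedding.induce {x | x ∉ S}).toHom
    exact SimpleGraph.Reachable.mono hle h2
  have hall : ∀ x, x ∉ S' → (dl H A').Reachable x b₀ := by
    intro x hx
    by_cases hxS : x ∈ S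
    · rw [hmem] at hx
      push Not at hx
      obtain ⟨h1, h2⟩ := hx hxS
      obtain ⟨b, hb, hrb⟩ := hr x h2 h1
      exact hrb.trans (hbase b hb)
    · exact hbase x hxS
  have hdata : Pool.Agent.U5.Data (dl H A') H S' := by
    refine ⟨dl_le H A', hiso, ?_⟩
    have hred : ∀ x (hx : x ∉ S'), ((dl H A').induce {v | v ∉ S'}).Reachable ⟨x, hx⟩ ⟨b₀, hb₀S'⟩ := by
      intro x hx
      obtain ⟨p⟩ := hall x hx
      exact reach_induce (dl H A') S' hiso p hx hb₀S'
    exact { preconnected := fun x y => (hred x.1 x.2).trans (hred y.1 y.2).symm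
            nonempty := ⟨⟨b₀, hb₀S'⟩⟩ }
  have hact : Pool.Agent.U5.act H S' = A' := by
    ext x
    rw [mem_act, hmem]
    constructor
    · rintro ⟨⟨h1, h2⟩, h3⟩
      rcases h2 with h2 | h2
      · exact h2
      · exact absurd (mem_act.mpr ⟨h1, h3⟩) h2
    · intro h
      exact ⟨⟨hAS h, Or.inl h⟩, (mem_act.mp (hA h)).2⟩
  have h1 := hG.sub (dl H A') S' (lt_of_le_of_ne hle hBne) (lt_of_le_of_ne (dl_le H A') hQne) hdata
  rw [hact, phi_eq] at h1
  have h2 := two_ned (dl_le H A')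
  have h3 : e2 H A' = tot H - tot (dl H A') := rfl
  rw [h3, ← h2]
  unfold Pool.Agent.U5.pot at h1
  rw [hact] at h1
  push_cast at h1 ⊢
  linarith

lemma redAt_of_rd {η : ℝ} {c1 : ℕ} {B H X : SimpleGraph V} {S : Finset V} {u z z' : V}
    (hnc : Pool.Agent.U5.NoChord B H S) (hz : z ∈ S)
    (huz : H.Adj u z) (huz' : H.Adj u z')
    (hR : Pool.Agent.U5.RD η c1 B H S u z z' X) :
    RedAt η (c1 : ℝ) H S (Pool.Agent.U5.act H S) u z z' X (Pool.Agent.U5.act X S) := by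
  have hadj : ∀ x y, X.Adj x y → x ≠ y ∧ x ≠ u ∧ y ≠ u ∧ x ≠ z' ∧ y ≠ z' ∧
      (H.Adj x y ∨ (x = z ∧ H.Adj z' y) ∨ (y = z ∧ H.Adj z' x)) := fun x y h => hR.hi h
  have hncX : Pool.Agent.U5.NoChord B X S := by
    intro x y hx hy h
    rcases (hadj x y h).2.2.2.2.2 with h1 | h1 | h1
    · exact hnc x y hx hy h1
    · exact absurd hz (h1.1 ▸ hx)
    · exact absurd hz (h1.1 ▸ hy)
  refine ⟨?_, ?_, ?_, fun s hs => hR.deg5 s hs, ?_, ?_, hR.ez, hR.ez'⟩
  · intro x y h
    obtain ⟨h1, h2, h3, h4, h5, h6⟩ := hadj x y h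
    rw [mgV_adj]
    refine ⟨h4, h5, h1, ?_⟩
    simp only [dl_adj, Finset.mem_singleton]
    rcases h6 with h6 | h6 | h6
    · exact Or.inl ⟨h6, h2, h3⟩
    · exact Or.inr (Or.inl ⟨h6.1, h6.2, huz'.ne', h3⟩)
    · exact Or.inr (Or.inr ⟨h6.1, h6.2, huz'.ne', h2⟩)
  · intro s hs
    rw [mem_act] at hs ⊢
    obtain ⟨hsS, y, hy⟩ := hs
    refine ⟨hsS, ?_⟩
    rcases (hadj s y hy).2.2.2.2.2 with h1 | h1 | h1
    · exact ⟨y, h1⟩
    · exact ⟨u, by rw [h1.1]; exact huz.symm⟩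
    · exact ⟨z', h1.2.symm⟩
  · intro s hs hsa y hy
    exact hsa (mem_act.mpr ⟨hs, y, hy⟩)
  · intro K hK hne hzK
    by_contra hcon
    push Not at hcon
    refine hR.cut {z} K hK (Finset.disjoint_singleton_right.mpr hzK) hne (by simp) ?_ ?_
    · intro x hx y hy hxy
      rw [Finset.mem_singleton] at hx hy
      exact absurd (hx.trans hy.symm) hxy
    · intro x hx y hxy
      by_cases h1 : y ∈ K
      · exact Or.inl h1
      · right
        rw [Finset.mem_singleton]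
        by_contra h2
        exact hcon x hx y h1 h2 hxy
  · have h1 := hR.pot
    rw [phi_eq] at h1
    have h2 := two_pot hR.data hncX
    have h3 : (2 : ℝ) * (Pool.Agent.U5.pot B X S : ℝ) =
        (e2 X (Pool.Agent.U5.act X S) : ℝ) - 6 * ((Pool.Agent.U5.act X S).card : ℝ) := by exact_mod_cast h2
    linarith

theorem ctx_of_good {η : ℝ} {c1 : ℕ} {B H : SimpleGraph V} {S : Finset V}
    (hP : Pool.Agent.U5.Prm η c1) (hG : Pool.Agent.U5.Good η c1 B H S)
    (hnc : Pool.Agent.U5.NoChord B H S) : Ctx η (c1 : ℝ) H S (Pool.Agent.U5.act H S) := by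
  have hB : ∀ x y, B.Adj x y → x ∉ S := fun x y h hx => hG.data.iso x hx y h
  have hBS : B ≤ dl H S := by
    intro x y h
    exact ⟨hG.data.le h, hB x y h, hB y x h.symm⟩
  refine ⟨cst_of_prm hP, fun x hx => (mem_act.mp hx).1, ?_, ?_, ?_, fun s hs => hG.deg5 s hs, ?_,
    fun A' hA hne hneA hr => ih_of_good hG A' hA hne hneA hr, ?_⟩
  · intro s hs hsa y hy
    exact hsa (mem_act.mpr ⟨hs, y, hy⟩)
  · obtain ⟨⟨b₀, hb₀⟩⟩ := hG.data.conn.nonempty
    exact ⟨b₀, hb₀⟩
  · intro x y hx hy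
    have h1 := hG.data.conn.preconnected ⟨x, hx⟩ ⟨y, hy⟩
    have h2 := h1.map (SimpleGraph.Embedding.induce {x | x ∉ S}).toHom
    exact SimpleGraph.Reachable.mono hBS h2
  · intro T K hT hTc hK hd hne
    by_contra hcon
    push Not at hcon
    refine hG.cut T K hK hd hne hTc hT ?_
    intro x hx y hxy
    by_cases h1 : y ∈ K
    · exact Or.inl h1
    · right
      by_contra h2
      exact hcon x hx y h1 h2 hxy
  · intro u z₁ z₃ hu h1 h3 hdeg hu1 hu3 h13 hz
    obtain ⟨X, hX⟩ := hG.red u z₁ z₃ (mem_act.mp hu).1 (mem_act.mp h1).1 (mem_act.mp h3).1 hdeg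
      hu1 hu3 h13 hz
    exact ⟨X, _, redAt_of_rd hnc (mem_act.mp h1).1 hu1 hu3 hX⟩

lemma aV_eq (H : SimpleGraph V) (S : Finset V) (v : V) :
    Pool.Agent.U5.aV H S v = out H S v := by
  unfold Pool.Agent.U5.aV out
  congr 1
  ext x
  simp only [Finset.mem_filter, Finset.mem_univ, true_and, Finset.mem_sdiff, mem_nbs]
  tauto

omit [Fintype V] in
lemma sep_conv {H : SimpleGraph V} {S : Finset V} {u z z' y : V}
    (hsep : Pool.Agent.U5.Sep H S u z z' y) (hzu : z ≠ u)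
    (X : Finset V) (hX : X ⊆ Pool.Agent.U5.act H S) (hy : y ∈ X) (hu : u ∉ X) (hz : z ∉ X) (hz' : z' ∉ X)
    (hc : (H.induce (X : Set V)).Connected) (hr : (dl H (insert u X)).Reachable z z') :
    ∀ x ∈ X, H.Adj u x → x = y := by
  refine hsep X hX hy hu hz hz' ?_ ?_
  · intro a ha b hb
    obtain ⟨p⟩ := hc.preconnected ⟨a, ha⟩ ⟨b, hb⟩
    exact walk_induce H X p
  · obtain ⟨p⟩ := hr
    have h1 := support_avoid H (insert u X) p (by
      rw [Finset.mem_insert]
      rintro (h | h)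
      · exact hzu h
      · exact hz h)
    refine ⟨p.mapLe (dl_le H _), ?_⟩
    intro v hv
    rw [Walk.support_mapLe_eq_support] at hv
    have h2 := h1 v hv
    rw [Finset.mem_insert, not_or] at h2
    exact h2

/-- T-E, T-H: the outcomes of a reduction. -/
theorem outcome_of_good {η : ℝ} {c1 : ℕ} {B H : SimpleGraph V} {S : Finset V}
    (hP : Pool.Agent.U5.Prm η c1) (hG : Pool.Agent.U5.Good η c1 B H S)
    (hnc : Pool.Agent.U5.NoChord B H S) : Pool.Agent.U5.Outcome η c1 B H S := by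
  have hC := ctx_of_good hP hG hnc
  intro u z z' y hh
  have hpot := two_pot hG.data hnc
  have hpotR : (2 : ℝ) * (Pool.Agent.U5.pot B H S : ℝ) =
      ((e2 H (Pool.Agent.U5.act H S) : ℤ) : ℝ) - 6 * ((Pool.Agent.U5.act H S).card : ℝ) := by exact_mod_cast hpot
  have hu : u ∈ Pool.Agent.U5.act H S := mem_act.mpr ⟨hh.hu, z, hh.uz⟩
  have hz : z ∈ Pool.Agent.U5.act H S := mem_act.mpr ⟨hh.hz, u, hh.uz.symm⟩
  have hz' : z' ∈ Pool.Agent.U5.act H S := mem_act.mpr ⟨hh.hz', u, hh.uz'.symm⟩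
  have hy : y ∈ Pool.Agent.U5.act H S := mem_act.mpr ⟨hh.hy, z, hh.zy.symm⟩
  have hactS : ∀ x a, x ∈ S → H.Adj a x → x ∈ Pool.Agent.U5.act H S := fun x a hx h =>
    mem_act.mpr ⟨hx, a, h.symm⟩
  have hdeg : (nbs H u).card = 5 := hh.du
  have hdegeq : ∀ v, Pool.Agent.Helper36.BL.deg H v = (nbs H v).card := fun _ => rfl
  have hau := hh.au
  have hau' := hh.au'
  rw [aV_eq] at hau hau'
  by_cases huy : H.Adj u y
  · -- TYPE I
    have hsep : Sep1 H (Pool.Agent.U5.act H S) u z y z' := fun X hX h1 h2 h3 h4 h5 h6 =>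
      sep_conv hh.sep hh.uz.ne' X hX h1 h2 h3 h4 h5 h6
    have hoth : (oth H (Pool.Agent.U5.act H S) u z y z').Nonempty := by
      obtain ⟨x, hx, h1, h2, h3, h4⟩ := hh.other
      exact ⟨x, (mem_oth _ _ _ _ _ _ _).mpr ⟨h1, hactS x u hx h1, h2, h4, h3⟩⟩
    refine ⟨?_, ?_⟩
    · have := p3_typeI hC hu hz hy hz' hdeg hh.uz huy hh.uz' hh.ne hh.zy.symm hh.zy'.symm hh.nadj
        hsep hoth
      omega
    · intro hlt hn
      rw [phi_eq] at hlt
      have h1 := typeI hC (by exact_mod_cast hn) (by linarith) hu hz hy hz' hdeg hh.uz huy hh.uz'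
        hh.ne hh.zy.symm hh.zy'.symm hh.nadj hsep hau
      rcases h1 with ⟨h2, h3⟩ | ⟨h2, h3, h4⟩ | ⟨h0, h2, h3, h4, h5, h6, h7⟩
      · left
        refine ⟨?_, ?_, fun _ => ?_⟩
        · intro x hx hux hxz hxz' hxy
          rw [hdegeq]
          exact h3 x ((mem_oth _ _ _ _ _ _ _).mpr ⟨hux, hactS x u hx hux, hxz, hxy, hxz'⟩)
        · rw [hdegeq]; omega
        · rw [hdegeq]; exact h2
      · right; left
        refine ⟨huy, h2, ?_, ?_⟩
        · intro x hx hux hxz hxz' hxy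
          rw [hdegeq]
          exact h3 x ((mem_oth _ _ _ _ _ _ _).mpr ⟨hux, hactS x u hx hux, hxz, hxy, hxz'⟩)
        · intro x hx hyx hxu hxz hxz'
          rw [hdegeq]
          exact h4 x (hactS x y hx hyx) hyx hxu hxz hxz'
      · right; right
        refine ⟨huy, by rw [aV_eq]; exact h0, h2, ?_, by rw [aV_eq]; exact h4, ?_, ?_, ?_⟩
        · intro x hx hyx
          exact h3 x (hactS x y hx hyx) hyx
        · rw [aV_eq, aV_eq]; exact h7
        · rw [aV_eq]; exact h5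
        · rw [aV_eq]; exact h6
  · -- TYPE III
    have hsep : Sep3 H (Pool.Agent.U5.act H S) u z y z' := fun X hX h1 h2 h3 h4 h5 h6 w hw huw => by
      have := sep_conv hh.sep hh.uz.ne' X hX h1 h2 h3 h4 h5 h6 w hw huw
      rw [this] at huw
      exact huy huw
    refine ⟨?_, ?_⟩
    · have := p3_typeIII hC hu hz hy hz' hdeg hh.uz hh.uz' hh.ne hh.yu hh.zy.symm hh.zy'.symm
        hh.nadj hsep
      omega
    · intro hlt hn
      rw [phi_eq] at hlt
      have h1 := typeIII hC (by linarith) hu hz hy hz' hdeg hh.uz hh.uz' hh.ne hh.yu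
        hh.zy.symm hh.zy'.symm hh.nadj hsep (hau' huy)
      left
      refine ⟨?_, h1.1, fun h => absurd h huy⟩
      intro x hx hux hxz hxz' hxy
      exact h1.2 x hux hxz hxz'

end Pool.Agent.Helper15.U5
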