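import Mathlib

/-!
# Counting edges on a fixed vertex set: deletion and identification of two vertices
-/

set_option autoImplicit false

namespace Pool.Agent.Helper15.U5

open SimpleGraph Finset
open scoped Classical

variable {V : Type}

/-- The graph without the edges which meet `A`. -/
def dl (X : SimpleGraph V) (A : Finset V) : SimpleGraph V where
  Adj x y := X.Adj x y ∧ x ∉ A ∧ y ∉ A
  symm := ⟨fun _ _ h => ⟨h.1.symm, h.2.2, h.2.1⟩⟩
  loopless := ⟨fun _ h => h.1.ne rfl⟩

/-- `b` is identified with `a` and becomes an isolated vertex. -/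
def mgV (X : SimpleGraph V) (a b : V) : SimpleGraph V where
  Adj x y := x ≠ b ∧ y ≠ b ∧ x ≠ y ∧ (X.Adj x y ∨ (x = a ∧ X.Adj b y) ∨ (y = a ∧ X.Adj b x))
  symm := ⟨by
    rintro x y ⟨h1, h2, h3, h4⟩
    refine ⟨h2, h1, h3.symm, ?_⟩
    rcases h4 with h4 | h4 | h4
    · exact Or.inl h4.symm
    · exact Or.inr (Or.inr h4)
    · exact Or.inr (Or.inl h4)⟩
  loopless := ⟨fun _ h => h.2.2.1 rfl⟩

lemma dl_adj (X : SimpleGraph V) (A : Finset V) (x y : V) :
    (dl X A).Adj x y ↔ X.Adj x y ∧ x ∉ A ∧ y ∉ A := Iff.rfl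

lemma mgV_adj (X : SimpleGraph V) (a b x y : V) :
    (mgV X a b).Adj x y ↔
      x ≠ b ∧ y ≠ b ∧ x ≠ y ∧ (X.Adj x y ∨ (x = a ∧ X.Adj b y) ∨ (y = a ∧ X.Adj b x)) := Iff.rfl

lemma dl_le (X : SimpleGraph V) (A : Finset V) : dl X A ≤ X := fun _ _ h => h.1

lemma dl_dl (X : SimpleGraph V) (A C : Finset V) : dl (dl X A) C = dl X (A ∪ C) := by
  ext x y
  simp only [dl_adj, Finset.mem_union]
  tauto

lemma mgV_dl (X : SimpleGraph V) (a b : V) (A : Finset V) (ha : a ∉ A) (hb : b ∉ A) :
    mgV (dl X A) a b = dl (mgV X a b) A := by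
  ext x y
  simp only [dl_adj, mgV_adj]
  constructor
  · rintro ⟨h1, h2, h3, h4 | ⟨rfl, h4⟩ | ⟨rfl, h4⟩⟩
    · exact ⟨⟨h1, h2, h3, Or.inl h4.1⟩, h4.2⟩
    · exact ⟨⟨h1, h2, h3, Or.inr (Or.inl ⟨rfl, h4.1⟩)⟩, ha, h4.2.2⟩
    · exact ⟨⟨h1, h2, h3, Or.inr (Or.inr ⟨rfl, h4.1⟩)⟩, h4.2.2, ha⟩
  · rintro ⟨⟨h1, h2, h3, h4 | ⟨rfl, h4⟩ | ⟨rfl, h4⟩⟩, h5, h6⟩
    · exact ⟨h1, h2, h3, Or.inl ⟨h4, h5, h6⟩⟩
    · exact ⟨h1, h2, h3, Or.inr (Or.inl ⟨rfl, h4, hb, h6⟩)⟩
    · exact ⟨h1, h2, h3, Or.inr (Or.inr ⟨rfl, h4, hb, h5⟩)⟩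

variable [Fintype V]

/-- The neighbours. -/
noncomputable def nbs (X : SimpleGraph V) (v : V) : Finset V := univ.filter fun x => X.Adj v x

/-- The common neighbours. -/
noncomputable def cnb (X : SimpleGraph V) (a b : V) : Finset V :=
  univ.filter fun x => X.Adj a x ∧ X.Adj b x

/-- Twice the number of edges. -/
noncomputable def tot (X : SimpleGraph V) : ℕ := ∑ v, (nbs X v).card

/-- Twice the number of edges which meet `A`. -/
noncomputable def e2 (X : SimpleGraph V) (A : Finset V) : ℤ := (tot X : ℤ) - tot (dl X A)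

lemma mem_nbs (X : SimpleGraph V) (v x : V) : x ∈ nbs X v ↔ X.Adj v x := by simp [nbs]

lemma mem_cnb (X : SimpleGraph V) (a b x : V) : x ∈ cnb X a b ↔ X.Adj a x ∧ X.Adj b x := by
  simp [cnb]

lemma tot_eq (X : SimpleGraph V) : 2 * Nat.card X.edgeSet = tot X := by
  rw [Nat.card_eq_fintype_card, ← SimpleGraph.edgeFinset_card,
    ← X.sum_degrees_eq_twice_card_edges]
  unfold tot
  refine Finset.sum_congr rfl fun v _ => ?_
  rw [← SimpleGraph.card_neighborFinset_eq_degree]
  congr 1
  ext x
  simp [mem_nbs]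

lemma tot_mono {X Y : SimpleGraph V} (h : X ≤ Y) : tot X ≤ tot Y := by
  refine Finset.sum_le_sum fun v _ => Finset.card_le_card fun x hx => ?_
  rw [mem_nbs] at hx ⊢
  exact h hx

/-- Edges meeting `A ∪ C`. -/
lemma e2_union (X : SimpleGraph V) (A C : Finset V) :
    e2 X (A ∪ C) = e2 X A + e2 (dl X A) C := by
  unfold e2
  rw [dl_dl]
  ring

lemma e2_nonneg (X : SimpleGraph V) (A : Finset V) : 0 ≤ e2 X A := by
  unfold e2
  have := tot_mono (dl_le X A)
  omega

/-- The number of neighbours after the identification. -/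
lemma card_nbs_mgV (X : SimpleGraph V) (a b : V) (hab : a ≠ b) (v : V) (hva : v ≠ a)
    (hvb : v ≠ b) :
    (nbs X v).card = (nbs (mgV X a b) v).card + (if v ∈ cnb X a b then 1 else 0) := by
  have h1 : nbs (mgV X a b) v = ((nbs X v).erase b) ∪ (if X.Adj b v then {a} else ∅) := by
    ext x
    simp only [mem_nbs, mgV_adj, Finset.mem_union, Finset.mem_erase]
    constructor
    · rintro ⟨_, h2, _, h4 | ⟨h4, _⟩ | ⟨rfl, h4⟩⟩
      · exact Or.inl ⟨h2, h4⟩
      · exact absurd h4 hva
      · right; simp [h4]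
    · rintro (⟨h2, h3⟩ | h2)
      · exact ⟨hvb, h2, h3.ne, Or.inl h3⟩
      · split_ifs at h2 with h3
        · rw [Finset.mem_singleton] at h2
          subst h2
          exact ⟨hvb, hab, hva, Or.inr (Or.inr ⟨rfl, h3⟩)⟩
        · exact absurd h2 (Finset.notMem_empty _)
  rw [h1]
  by_cases h2 : X.Adj b v
  · have h3 : b ∈ nbs X v := (mem_nbs X v b).mpr h2.symm
    rw [if_pos h2]
    by_cases h4 : X.Adj a v
    · have h5 : a ∈ (nbs X v).erase b :=
        Finset.mem_erase.mpr ⟨hab, (mem_nbs X v a).mpr h4.symm⟩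
      rw [Finset.union_eq_left.mpr (Finset.singleton_subset_iff.mpr h5), Finset.card_erase_of_mem h3,
        if_pos ((mem_cnb X a b v).mpr ⟨h4, h2⟩)]
      have : 0 < (nbs X v).card := Finset.card_pos.mpr ⟨b, h3⟩
      omega
    · have h5 : a ∉ (nbs X v).erase b := fun h => h4 ((mem_nbs X v a).mp (Finset.mem_of_mem_erase h)).symm
      rw [Finset.card_union_of_disjoint (Finset.disjoint_singleton_right.mpr h5),
        Finset.card_erase_of_mem h3, Finset.card_singleton,
        if_neg (fun h => h4 ((mem_cnb X a b v).mp h).1)]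
      have : 0 < (nbs X v).card := Finset.card_pos.mpr ⟨b, h3⟩
      omega
  · have h3 : b ∉ nbs X v := fun h => h2 ((mem_nbs X v b).mp h).symm
    rw [if_neg h2, Finset.union_empty, Finset.erase_eq_of_notMem h3,
      if_neg (fun h => h2 ((mem_cnb X a b v).mp h).2)]
    rfl

/-- Identification of two nonadjacent vertices loses the common neighbours. -/
lemma tot_mgV (X : SimpleGraph V) (a b : V) (hab : a ≠ b) (hadj : ¬ X.Adj a b) :
    tot X = tot (mgV X a b) + 2 * (cnb X a b).card := by
  have hne : ∀ v, v ≠ a → v ≠ b → (nbs X v).card =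
      (nbs (mgV X a b) v).card + (if v ∈ cnb X a b then 1 else 0) :=
    fun v hva hvb => card_nbs_mgV X a b hab v hva hvb
  have hb0 : (nbs (mgV X a b) b).card = 0 := by
    rw [Finset.card_eq_zero, Finset.eq_empty_iff_forall_notMem]
    intro x hx
    rw [mem_nbs, mgV_adj] at hx
    exact hx.1 rfl
  have ha0 : (nbs X a).card + (nbs X b).card = (nbs (mgV X a b) a).card + (cnb X a b).card := by
    have h1 : nbs (mgV X a b) a = nbs X a ∪ nbs X b := by
      ext x
      simp only [mem_nbs, mgV_adj, Finset.mem_union]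
      constructor
      · rintro ⟨_, h2, h3, h4 | ⟨_, h4⟩ | ⟨h4, _⟩⟩
        · exact Or.inl h4
        · exact Or.inr h4
        · exact absurd h4.symm h3
      · rintro (h | h)
        · exact ⟨hab, fun h2 => hadj (h2 ▸ h), h.ne, Or.inl h⟩
        · exact ⟨hab, h.ne.symm, fun h2 => hadj (by rw [h2]; exact h.symm),
            Or.inr (Or.inl ⟨trivial, h⟩)⟩
    have h2 : cnb X a b = nbs X a ∩ nbs X b := by
      ext x
      simp only [mem_cnb, Finset.mem_inter, mem_nbs]
    rw [h1, h2, Finset.card_union_add_card_inter]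
  have hsplit : ∀ F : V → ℕ, ∑ v, F v = F a + F b + ∑ v ∈ ((univ : Finset V).erase a).erase b, F v := by
    intro F
    have hb : b ∈ (univ : Finset V).erase a := Finset.mem_erase.mpr ⟨hab.symm, mem_univ b⟩
    rw [← Finset.add_sum_erase univ F (mem_univ a), ← Finset.add_sum_erase _ F hb]
    ring
  unfold tot
  rw [hsplit, hsplit (fun v => (nbs (mgV X a b) v).card), hb0]
  have h3 : ∑ v ∈ ((univ : Finset V).erase a).erase b, (nbs X v).card =
      ∑ v ∈ ((univ : Finset V).erase a).erase b, (nbs (mgV X a b) v).card + (cnb X a b).card := by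
    have h4 : (cnb X a b).card = ∑ v ∈ ((univ : Finset V).erase a).erase b,
        (if v ∈ cnb X a b then 1 else 0) := by
      rw [Finset.sum_ite_mem, Finset.sum_const, smul_eq_mul, mul_one]
      congr 1
      ext x
      simp only [Finset.mem_inter, Finset.mem_erase, Finset.mem_univ, and_true, mem_cnb]
      constructor
      · rintro ⟨h5, h6⟩
        exact ⟨⟨h6.ne.symm, h5.ne.symm⟩, h5, h6⟩
      · exact fun h => h.2
    rw [h4, ← Finset.sum_add_distrib]
    refine Finset.sum_congr rfl fun v hv => ?_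
    rw [Finset.mem_erase, Finset.mem_erase] at hv
    exact hne v hv.2.1 hv.1
  rw [h3, ha0]
  ring

/-- The edges meeting `A`. -/
lemma e2_mgV (X : SimpleGraph V) (a b : V) (hab : a ≠ b) (hadj : ¬ X.Adj a b) (A : Finset V)
    (ha : a ∉ A) (hb : b ∉ A) :
    e2 X A = e2 (mgV X a b) A + 2 * ((cnb X a b) ∩ A).card := by
  unfold e2
  rw [← mgV_dl X a b A ha hb, tot_mgV X a b hab hadj,
    tot_mgV (dl X A) a b hab (fun h => hadj h.1)]
  have h1 : cnb (dl X A) a b = cnb X a b \ A := by
    ext x
    simp only [mem_cnb, dl_adj, Finset.mem_sdiff]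
    tauto
  rw [h1]
  have h2 : (cnb X a b \ A).card + (cnb X a b ∩ A).card = (cnb X a b).card :=
    Finset.card_sdiff_add_card_inter _ _
  push_cast
  zify at h2
  linarith

/-- The edges at a vertex. -/
lemma e2_singleton (X : SimpleGraph V) (v : V) : e2 X {v} = 2 * (nbs X v).card := by
  unfold e2 tot
  have h1 : ∀ x, (nbs X x).card = (nbs (dl X {v}) x).card +
      ((if x = v then (nbs X v).card else 0) + (if X.Adj v x then 1 else 0)) := by
    intro x
    by_cases hx : x = v
    · subst hx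
      have h2 : (nbs (dl X {x}) x).card = 0 := by
        rw [Finset.card_eq_zero, Finset.eq_empty_iff_forall_notMem]
        intro y hy
        rw [mem_nbs, dl_adj] at hy
        exact hy.2.1 (Finset.mem_singleton_self x)
      rw [h2]
      simp
    · rw [if_neg hx]
      have h2 : nbs (dl X {v}) x = (nbs X x).erase v := by
        ext y
        simp only [mem_nbs, dl_adj, Finset.mem_singleton, Finset.mem_erase]
        tauto
      rw [h2]
      by_cases h3 : X.Adj v x
      · have h4 : v ∈ nbs X x := (mem_nbs X x v).mpr h3.symm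
        rw [if_pos h3, Finset.card_erase_of_mem h4]
        have : 0 < (nbs X x).card := Finset.card_pos.mpr ⟨v, h4⟩
        omega
      · have h4 : v ∉ nbs X x := fun h => h3 ((mem_nbs X x v).mp h).symm
        rw [if_neg h3, Finset.erase_eq_of_notMem h4]
        omega
  rw [Finset.sum_congr rfl fun x _ => h1 x, Finset.sum_add_distrib, Finset.sum_add_distrib]
  have h2 : ∑ x, (if x = v then (nbs X v).card else 0) = (nbs X v).card := by
    rw [Finset.sum_ite_eq']; simp
  have h3 : ∑ x, (if X.Adj v x then 1 else 0) = (nbs X v).card := by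
    unfold nbs
    rw [Finset.card_filter]
  rw [h2, h3]
  push_cast
  ring

/-- Deletion of `u` changes the number of edges meeting `A`. -/
lemma e2_dl_singleton (X : SimpleGraph V) (u : V) (A : Finset V) (hu : u ∉ A) :
    e2 X A = e2 (dl X {u}) A + 2 * ((nbs X u) ∩ A).card := by
  have h1 := e2_union X A {u}
  have h2 := e2_union X {u} A
  rw [Finset.union_comm] at h1
  have h3 := e2_singleton X u
  have h4 := e2_singleton (dl X A) u
  have h5 : nbs (dl X A) u = nbs X u \ A := by
    ext x
    simp only [mem_nbs, dl_adj, Finset.mem_sdiff]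
    tauto
  have h6 : (nbs X u \ A).card + (nbs X u ∩ A).card = (nbs X u).card :=
    Finset.card_sdiff_add_card_inter _ _
  rw [h5] at h4
  zify at h6
  linarith

/-- No edges between `A` and `C`. -/
lemma e2_union_of_sep (X : SimpleGraph V) (A C : Finset V) (hAC : Disjoint A C)
    (h : ∀ a ∈ A, ∀ c ∈ C, ¬ X.Adj a c) : e2 X (A ∪ C) = e2 X A + e2 X C := by
  rw [e2_union]
  congr 1
  unfold e2
  rw [dl_dl]
  have key : ∀ v, ((nbs (dl X A) v).card : ℤ) - (nbs (dl X (A ∪ C)) v).card =
      (nbs X v).card - (nbs (dl X C) v).card := by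
    intro v
    by_cases hvA : v ∈ A
    · have h1 : nbs (dl X A) v = ∅ := by
        rw [Finset.eq_empty_iff_forall_notMem]
        intro y hy
        rw [mem_nbs, dl_adj] at hy
        exact hy.2.1 hvA
      have h2 : nbs (dl X (A ∪ C)) v = ∅ := by
        rw [Finset.eq_empty_iff_forall_notMem]
        intro y hy
        rw [mem_nbs, dl_adj] at hy
        exact hy.2.1 (Finset.mem_union_left _ hvA)
      have h3 : nbs (dl X C) v = nbs X v := by
        ext y
        rw [mem_nbs, mem_nbs, dl_adj]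
        constructor
        · exact fun h => h.1
        · intro h4
          exact ⟨h4, fun h5 => Finset.disjoint_left.mp hAC hvA h5, fun h5 => h v hvA y h5 h4⟩
      rw [h1, h2, h3]
      simp
    · by_cases hvC : v ∈ C
      · have h1 : nbs (dl X (A ∪ C)) v = ∅ := by
          rw [Finset.eq_empty_iff_forall_notMem]
          intro y hy
          rw [mem_nbs, dl_adj] at hy
          exact hy.2.1 (Finset.mem_union_right _ hvC)
        have h2 : nbs (dl X C) v = ∅ := by
          rw [Finset.eq_empty_iff_forall_notMem]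
          intro y hy
          rw [mem_nbs, dl_adj] at hy
          exact hy.2.1 hvC
        have h3 : nbs (dl X A) v = nbs X v := by
          ext y
          rw [mem_nbs, mem_nbs, dl_adj]
          constructor
          · exact fun h => h.1
          · intro h4
            exact ⟨h4, hvA, fun h5 => h y h5 v hvC h4.symm⟩
        rw [h1, h2, h3]
      · have h1 : nbs (dl X A) v = nbs X v \ A := by
          ext y
          simp only [mem_nbs, dl_adj, Finset.mem_sdiff]
          tauto
        have h2 : nbs (dl X (A ∪ C)) v = (nbs X v \ A) \ C := by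
          ext y
          simp only [mem_nbs, dl_adj, Finset.mem_sdiff, Finset.mem_union]
          tauto
        have h3 : nbs (dl X C) v = nbs X v \ C := by
          ext y
          simp only [mem_nbs, dl_adj, Finset.mem_sdiff]
          tauto
        have h4 : ((nbs X v \ A) \ C).card + ((nbs X v \ A) ∩ C).card = (nbs X v \ A).card :=
          Finset.card_sdiff_add_card_inter _ _
        have h5 : (nbs X v \ C).card + (nbs X v ∩ C).card = (nbs X v).card :=
          Finset.card_sdiff_add_card_inter _ _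
        have h6 : (nbs X v \ A) ∩ C = nbs X v ∩ C := by
          ext y
          simp only [Finset.mem_sdiff, Finset.mem_inter]
          constructor
          · exact fun h => ⟨h.1.1, h.2⟩
          · exact fun h => ⟨⟨h.1, fun h7 => Finset.disjoint_left.mp hAC h7 h.2⟩, h.2⟩
        rw [h1, h2, h3]
        rw [h6] at h4
        omega
  unfold tot
  push_cast
  rw [← Finset.sum_sub_distrib, ← Finset.sum_sub_distrib]
  exact Finset.sum_congr rfl fun v _ => key v

/-- Only the edges which meet `A` matter. -/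
lemma e2_mono {X Y : SimpleGraph V} (h : X ≤ Y) (A : Finset V) : e2 X A ≤ e2 Y A := by
  unfold e2 tot
  push_cast
  rw [← Finset.sum_sub_distrib, ← Finset.sum_sub_distrib]
  refine Finset.sum_le_sum fun v _ => ?_
  have key : ∀ Z : SimpleGraph V, ((nbs Z v).card : ℤ) - (nbs (dl Z A) v).card =
      if v ∈ A then ((nbs Z v).card : ℤ) else ((nbs Z v ∩ A).card : ℤ) := by
    intro Z
    split_ifs with hv
    · have h1 : nbs (dl Z A) v = ∅ := by
        rw [Finset.eq_empty_iff_forall_notMem]
        intro y hy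
        rw [mem_nbs, dl_adj] at hy
        exact hy.2.1 hv
      rw [h1]
      simp
    · have h1 : nbs (dl Z A) v = nbs Z v \ A := by
        ext y
        simp only [mem_nbs, dl_adj, Finset.mem_sdiff]
        tauto
      have h2 : (nbs Z v \ A).card + (nbs Z v ∩ A).card = (nbs Z v).card :=
        Finset.card_sdiff_add_card_inter _ _
      rw [h1]
      omega
  have hsub : nbs X v ⊆ nbs Y v := fun x hx => by
    rw [mem_nbs] at hx ⊢
    exact h hx
  rw [key X, key Y]
  split_ifs with hv
  · exact_mod_cast Finset.card_le_card hsub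
  · exact_mod_cast Finset.card_le_card (Finset.inter_subset_inter_right hsub)

lemma e2_eq_of_subset (X : SimpleGraph V) (A C : Finset V) (h : A ⊆ C)
    (hd : ∀ x ∈ C, x ∉ A → ∀ y, ¬ X.Adj x y) : e2 X C = e2 X A := by
  have h1 : C = A ∪ (C \ A) := by
    rw [Finset.union_sdiff_of_subset h]
  rw [h1, e2_union_of_sep X A (C \ A) Finset.disjoint_sdiff]
  · have h2 : e2 X (C \ A) = 0 := by
      have h3 : dl X (C \ A) = X := by
        ext x y
        rw [dl_adj]
        constructor
        · exact fun h => h.1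
        · intro h4
          refine ⟨h4, fun h5 => ?_, fun h5 => ?_⟩
          · rw [Finset.mem_sdiff] at h5
            exact hd x h5.1 h5.2 y h4
          · rw [Finset.mem_sdiff] at h5
            exact hd y h5.1 h5.2 x h4.symm
      unfold e2
      rw [h3]
      ring
    rw [h2, add_zero]
  · intro a _ c hc h4
    rw [Finset.mem_sdiff] at hc
    exact hd c hc.1 hc.2 a h4.symm

/-- The count (2.3). -/
theorem count_main (H Hs : SimpleGraph V) (S L : Finset V) (u z₁ z₃ : V) (hu : u ∈ S) (h1 : z₁ ∈ S)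
    (h3 : z₃ ∈ S) (h13 : z₁ ≠ z₃) (hadj : ¬ H.Adj z₁ z₃)
    (hLu : u ∉ L) (hL1 : z₁ ∉ L) (hL3 : z₃ ∉ L) (hLS : L ⊆ S) :
    e2 H S = 2 * (nbs H u).card
      + 2 * ((cnb (dl H {u}) z₁ z₃).card - ((cnb (dl H {u}) z₁ z₃) ∩ L).card : ℤ)
      + (e2 H L - 2 * ((nbs H u) ∩ L).card)
      + (e2 (dl (mgV (dl H {u}) z₁ z₃) L) S - e2 Hs S) + e2 Hs S := by
  set H' := dl H {u} with hH'
  set H1 := mgV H' z₁ z₃ with hH1
  have hadj' : ¬ H'.Adj z₁ z₃ := fun h => hadj h.1
  have e1 : e2 H S = e2 H {u} + e2 H' S := by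
    have : ({u} : Finset V) ∪ S = S := Finset.union_eq_right.mpr (Finset.singleton_subset_iff.mpr hu)
    rw [← e2_union, this]
  have e2' : e2 H' S = e2 H1 S + 2 * (cnb H' z₁ z₃).card := by
    unfold e2
    have h4 : dl H1 S = dl H' S := by
      ext x y
      rw [dl_adj, dl_adj, hH1, mgV_adj]
      constructor
      · rintro ⟨⟨_, _, _, h5 | ⟨rfl, _⟩ | ⟨rfl, _⟩⟩, h6, h7⟩
        · exact ⟨h5, h6, h7⟩
        · exact absurd h1 h6
        · exact absurd h1 h7
      · rintro ⟨h5, h6, h7⟩
        exact ⟨⟨fun h => h6 (h ▸ h3), fun h => h7 (h ▸ h3), h5.ne, Or.inl h5⟩, h6, h7⟩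
    rw [h4, tot_mgV H' z₁ z₃ h13 hadj']
    push_cast
    ring
  have e3 : e2 H1 S = e2 H1 L + e2 (dl H1 L) S := by
    rw [← e2_union, Finset.union_eq_right.mpr hLS]
  have e4 : e2 H' L = e2 H1 L + 2 * ((cnb H' z₁ z₃) ∩ L).card :=
    e2_mgV H' z₁ z₃ h13 hadj' L hL1 hL3
  have e5 : e2 H L = e2 H' L + 2 * ((nbs H u) ∩ L).card := e2_dl_singleton H u L hLu
  have e6 := e2_singleton H u
  linarith

end Pool.Agent.Helper15.U5
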