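import Pool.Agent.Helper15.U5.Count

/-!
# Combinatorial context of the theorem `T_lin`
-/

set_option autoImplicit false

namespace Pool.Agent.Helper15.U5

open SimpleGraph Finset
open scoped Classical

/-- The lower bound for the potential. -/
noncomputable def phi (η c₁ : ℝ) (n : ℕ) : ℝ :=
  if n = 0 then 1 else if n = 1 then 2 else 3 + η * max ((n : ℝ) - c₁) 0

lemma phi_one (η c₁ : ℝ) : phi η c₁ 1 = 2 := by simp [phi]

lemma phi_of_two_le (η c₁ : ℝ) {n : ℕ} (h : 2 ≤ n) :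
    phi η c₁ n = 3 + η * max ((n : ℝ) - c₁) 0 := by
  unfold phi
  rw [if_neg (by omega), if_neg (by omega)]

/-- The conditions on the constants. -/
structure Cst (η c₁ : ℝ) : Prop where
  hη : 0 < η
  hc : 10 ≤ c₁
  hηc : η * (c₁ + 10) ≤ 1 / 20

variable {V : Type} [Fintype V]

/-- The result of one reduction step at `u`, where `z₁` and `z₃` are identified. -/
structure RedAt (η c₁ : ℝ) (H : SimpleGraph V) (S A : Finset V) (u z₁ z₃ : V)
    (Hs : SimpleGraph V) (A₁ : Finset V) : Prop where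
  le : Hs ≤ mgV (dl H {u}) z₁ z₃
  sub : A₁ ⊆ A
  inact : ∀ s ∈ S, s ∉ A₁ → ∀ y, ¬ Hs.Adj s y
  deg5 : ∀ s ∈ A₁, 5 ≤ (nbs Hs s).card
  cut1 : ∀ K ⊆ A₁, K.Nonempty → z₁ ∉ K → ∃ a ∈ K, ∃ b, b ∉ K ∧ b ≠ z₁ ∧ Hs.Adj a b
  pot : 2 * phi η c₁ A₁.card + 6 * A₁.card ≤ e2 Hs A₁
  x1 : ∃ x, Hs.Adj z₁ x ∧ H.Adj z₁ x ∧ ¬ H.Adj z₃ x
  x3 : ∃ x, Hs.Adj z₁ x ∧ H.Adj z₃ x ∧ ¬ H.Adj z₁ x

/-- What is known about a critical graph `H` without chords over a connected base: `S` is the set of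
the vertices outside the base, `A` the set of the active vertices. -/
structure Ctx (η c₁ : ℝ) (H : SimpleGraph V) (S A : Finset V) : Prop where
  cst : Cst η c₁
  sub : A ⊆ S
  inact : ∀ s ∈ S, s ∉ A → ∀ y, ¬ H.Adj s y
  ne : ∃ b, b ∉ S
  base : ∀ x y, x ∉ S → y ∉ S → (dl H S).Reachable x y
  deg5 : ∀ s ∈ A, 5 ≤ (nbs H s).card
  cut : ∀ T K : Finset V, (∀ x ∈ T, ∀ y ∈ T, x ≠ y → H.Adj x y) → T.card ≤ 3 → K ⊆ A →
    Disjoint K T → K.Nonempty → ∃ a ∈ K, ∃ b, b ∉ K ∧ b ∉ T ∧ H.Adj a b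
  IH : ∀ A' ⊆ A, A'.Nonempty → A' ≠ A →
    (∀ s ∈ A, s ∉ A' → ∃ b, b ∉ S ∧ (dl H A').Reachable s b) →
    2 * phi η c₁ A'.card + 6 * A'.card ≤ e2 H A'
  red : ∀ u z₁ z₃, u ∈ A → z₁ ∈ A → z₃ ∈ A → (nbs H u).card = 5 → H.Adj u z₁ → H.Adj u z₃ →
    z₁ ≠ z₃ → ¬ H.Adj z₁ z₃ → ∃ (Hs : SimpleGraph V) (A₁ : Finset V), RedAt η c₁ H S A u z₁ z₃ Hs A₁

section Connected

omit [Fintype V] in
lemma connected_insert (H : SimpleGraph V) (X : Finset V) (h : (H.induce (X : Set V)).Connected)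
    (a b : V) (ha : a ∈ X) (hab : H.Adj a b) :
    (H.induce ((insert b X : Finset V) : Set V)).Connected := by
  have h1 : ((insert b X : Finset V) : Set V) = (X : Set V) ∪ {a, b} := by
    ext x
    simp only [Finset.coe_insert, Set.mem_insert_iff, Finset.mem_coe, Set.mem_union,
      Set.mem_singleton_iff]
    constructor
    · rintro (rfl | h2)
      · exact Or.inr (Or.inr rfl)
      · exact Or.inl h2
    · rintro (h2 | rfl | rfl)
      · exact Or.inr h2
      · exact Or.inr ha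
      · exact Or.inl rfl
  rw [h1]
  have h2 : (H.induce ({a, b} : Set V)).Connected :=
    SimpleGraph.induce_pair_connected_of_adj hab
  exact SimpleGraph.induce_union_connected h.preconnected h2.preconnected
    ⟨a, ha, Set.mem_insert a _⟩

omit [Fintype V] in
/-- The component of `z` in `L`. -/
lemma exists_comp (H : SimpleGraph V) (L : Finset V) (z : V) (hz : z ∈ L) :
    ∃ X ⊆ L, z ∈ X ∧ (H.induce (X : Set V)).Connected ∧ ∀ a ∈ X, ∀ b ∈ L, b ∉ X → ¬ H.Adj a b := by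
  have hne : (L.powerset.filter fun X : Finset V =>
      z ∈ X ∧ (H.induce (X : Set V)).Connected).Nonempty := by
    refine ⟨{z}, ?_⟩
    rw [Finset.mem_filter, Finset.mem_powerset]
    refine ⟨Finset.singleton_subset_iff.mpr hz, Finset.mem_singleton_self z, ?_⟩
    have h1 : (({z} : Finset V) : Set V) = {z} := by simp
    rw [h1]
    have : Nonempty ↑({z} : Set V) := ⟨⟨z, rfl⟩⟩
    exact { preconnected := fun a b => by
              have : a = b := Subtype.ext (a.2.trans b.2.symm)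
              rw [this] }
  obtain ⟨X, hX, hmax⟩ := Finset.exists_max_image _ Finset.card hne
  rw [Finset.mem_filter, Finset.mem_powerset] at hX
  refine ⟨X, hX.1, hX.2.1, hX.2.2, ?_⟩
  intro a ha b hb hbX hab
  have h1 := hmax (insert b X) (by
    rw [Finset.mem_filter, Finset.mem_powerset]
    exact ⟨Finset.insert_subset hb hX.1, Finset.mem_insert_of_mem hX.2.1,
      connected_insert H X hX.2.2 a b ha hab⟩)
  rw [Finset.card_insert_of_notMem hbX] at h1
  omega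

end Connected

end Pool.Agent.Helper15.U5
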