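import Pool.Agent.U5.Core
import Pool.Agent.U5.Frame

/-!
# Critical pairs are `Good` (T-C)
-/

set_option autoImplicit false

namespace Pool.Agent.U5

open SimpleGraph Finset Pool.Agent.Helper36.BL

variable {Cl : Cls} {c0 q : ℝ} {V : Type} [Fintype V]

omit [Fintype V] in
open scoped Classical in
lemma mem_act' {H : SimpleGraph V} {S : Finset V} {s : V} :
    s ∈ act H S ↔ s ∈ S ∧ ∃ x, H.Adj s x := by
  unfold act
  exact Finset.mem_filter

lemma Crt.deg5 (hp : Par Cl c0 q V) {m : ℕ} {B H : SimpleGraph V} {S : Finset V}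
    (h : Crt Cl c0 q m B H) (hd : Data B H S) : Deg5 H S := by
  intro s hs
  rw [mem_act'] at hs
  exact h.five_le hp s (hd.iso s hs.1) hs.2

lemma Crt.cutFree (hp : Par Cl c0 q V) {m : ℕ} {B H : SimpleGraph V} {S : Finset V}
    (h : Crt Cl c0 q m B H) (hd : Data B H S) : CutFree 3 H S := by
  intro T K hK hdis hne hT hTc hKT
  obtain ⟨s, hs⟩ := hne
  exact h.cut hp T K hT hTc hdis (fun x hx => hd.iso x (mem_act'.mp (hK hx)).1)
    ⟨s, hs, (mem_act'.mp (hK hs)).2⟩ hKT

open scoped Classical in
/-- (2.1) -/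
lemma exists_edges {B H H' : SimpleGraph V} {S : Finset V} (hd : Data B H S) {u z z' : V}
    (hz : z ∈ S) (hz' : z' ∈ S) (huz : H.Adj u z) (huz' : H.Adj u z')
    (hBH' : B ≤ H') (hle : H' ≤ red H u z z')
    (hmin : ∀ X Y : SimpleGraph V, B ≤ X → X < H → H' ≤ Y → Nonempty (X ≃g Y) → False) :
    (∃ x, H'.Adj z x ∧ H.Adj z x ∧ ¬ H.Adj z' x) ∧
      (∃ x, H'.Adj z x ∧ H.Adj z' x ∧ ¬ H.Adj z x) := by
  have hadj : ∀ x y, H'.Adj x y → x ≠ y ∧ x ≠ u ∧ y ≠ u ∧ x ≠ z' ∧ y ≠ z' ∧
      (H.Adj x y ∨ (x = z ∧ H.Adj z' y) ∨ (y = z ∧ H.Adj z' x)) := fun x y h => hle h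
  have hBS : ∀ x y, B.Adj x y → x ∉ S := fun x y h hx => hd.iso x hx y h
  constructor
  · by_contra hcon
    push Not at hcon
    have hzx : ∀ x, H'.Adj z x → H.Adj z' x := by
      intro x hx
      rcases (hadj z x hx).2.2.2.2.2 with h1 | h1 | h1
      · exact hcon x hx h1
      · exact h1.2
      · exact absurd h1.1 hx.ne'
    set X : SimpleGraph V := H'.comap (Equiv.swap z z') with hX
    have hXadj : ∀ x y, X.Adj x y ↔ H'.Adj (Equiv.swap z z' x) (Equiv.swap z z' y) :=
      fun x y => Iff.rfl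
    have hfix : ∀ x, x ∉ S → Equiv.swap z z' x = x := by
      intro x hx
      exact Equiv.swap_apply_of_ne_of_ne (fun h => hx (h ▸ hz)) (fun h => hx (h ▸ hz'))
    have hiso : Nonempty (X ≃g H') := ⟨⟨Equiv.swap z z', by intro a b; exact Iff.rfl⟩⟩
    refine hmin X H' ?_ ?_ le_rfl hiso
    · intro x y h
      rw [hXadj, hfix x (hBS x y h), hfix y (hBS y x h.symm)]
      exact hBH' h
    · refine lt_of_le_of_ne ?_ ?_
      · have key : ∀ x y, X.Adj x y → x = z' → H.Adj x y := by
          intro x y h hxz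
          rw [hXadj, hxz, Equiv.swap_apply_right] at h
          have h1 : Equiv.swap z z' y ≠ z := h.ne'
          have h2 : Equiv.swap z z' y ≠ z' := (hadj _ _ h).2.2.2.2.1
          have h3 : y ≠ z := by
            intro h4
            rw [h4, Equiv.swap_apply_left] at h2
            exact h2 rfl
          have h4 : y ≠ z' := by
            intro h4
            rw [h4, Equiv.swap_apply_right] at h1
            exact h1 rfl
          rw [Equiv.swap_apply_of_ne_of_ne h3 h4] at h
          rw [hxz]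
          exact hzx y h
        have hnz : ∀ x y, X.Adj x y → x ≠ z := by
          intro x y h hxz
          rw [hXadj, hxz, Equiv.swap_apply_left] at h
          exact (hadj _ _ h).2.2.2.1 rfl
        intro x y h
        by_cases hx : x = z'
        · exact key x y h hx
        · by_cases hy : y = z'
          · exact (key y x h.symm hy).symm
          · have hx1 := hnz x y h
            have hy1 := hnz y x h.symm
            rw [hXadj, Equiv.swap_apply_of_ne_of_ne hx1 hx,
              Equiv.swap_apply_of_ne_of_ne hy1 hy] at h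
            rcases (hadj x y h).2.2.2.2.2 with h1 | h1 | h1
            · exact h1
            · exact absurd h1.1 hx1
            · exact absurd h1.1 hy1
      · intro h
        have h1 : X.Adj u z := by rw [h]; exact huz
        rw [hXadj, Equiv.swap_apply_of_ne_of_ne huz.ne huz'.ne] at h1
        exact (hadj _ _ h1).2.1 rfl
  · by_contra hcon
    push Not at hcon
    have hzx : ∀ x, H'.Adj z x → H.Adj z x := by
      intro x hx
      rcases (hadj z x hx).2.2.2.2.2 with h1 | h1 | h1
      · exact h1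
      · exact hcon x hx h1.2
      · exact absurd h1.1 hx.ne'
    refine hmin H' H' hBH' ?_ le_rfl ⟨RelIso.refl _⟩
    refine lt_of_le_of_ne ?_ ?_
    · intro x y h
      by_cases hx : x = z
      · rw [hx] at h ⊢
        exact hzx y h
      · by_cases hy : y = z
        · rw [hy] at h ⊢
          exact (hzx x h.symm).symm
        · rcases (hadj x y h).2.2.2.2.2 with h1 | h1 | h1
          · exact h1
          · exact absurd h1.1 hx
          · exact absurd h1.1 hy
    · intro h
      have h1 : H'.Adj u z := by rw [h]; exact huz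
      exact (hadj _ _ h1).2.1 rfl

/-- Critical pairs are `Good`, given the induction hypothesis. -/
theorem good_of_crt (hp : Par Cl c0 q V) {η : ℝ} {c1 m : ℕ} {B H : SimpleGraph V} {S : Finset V}
    (h : Crt Cl c0 q (m + 1) B H) (hd : Data B H S)
    (ih : ∀ (B' H' : SimpleGraph V) (S' : Finset V), Crt Cl c0 q m B' H' → Data B' H' S' →
      phi η c1 (act H' S').card ≤ (pot B' H' S' : ℝ)) : Good η c1 B H S := by
  refine ⟨hd, h.ne, h.deg5 hp hd, h.cutFree hp hd, ?_, ?_⟩
  · intro Q S' hBQ hQH hdQ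
    exact ih Q H S' (h.up hp hBQ hQH) hdQ
  · intro u z z' hu hz hz' hdeg huz huz' hne hna
    obtain ⟨H', hlt, hle, hcrt, hmin⟩ := h.reduce hp u z z' (hd.iso u hu) (hd.iso z hz)
      (hd.iso z' hz') hdeg huz huz' hne hna
    have hd' : Data B H' S := ⟨hlt.le, hd.iso, hd.conn⟩
    obtain ⟨h1, h2⟩ := exists_edges hd hz hz' huz huz' hlt.le hle hmin
    exact ⟨H', hd', hlt.ne, hle, hcrt.deg5 hp hd', hcrt.cutFree hp hd', ih B H' S hcrt hd', h1, h2⟩

end Pool.Agent.U5
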