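import Pool.Agent.Helper15.U5.Red

/-!
# The outcomes TYPE I and TYPE III
-/

set_option autoImplicit false

namespace Pool.Agent.Helper15.U5

open SimpleGraph Finset
open scoped Classical

section phi

variable {η c₁ : ℝ}

lemma phi_key (h : Cst η c₁) (T M K : ℝ) (h1 : T ≤ M + K) (h2 : 0 ≤ M) (hK0 : 0 ≤ K)
    (hK : K ≤ 2 * (c₁ + 10)) : 3 + η * max T 0 ≤ 4 + η * M := by
  have h3 : max T 0 ≤ M + K := max_le h1 (by linarith)
  have h4 : η * max T 0 ≤ η * (M + K) := mul_le_mul_of_nonneg_left h3 h.hη.le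
  have h5 : η * K ≤ η * (2 * (c₁ + 10)) := mul_le_mul_of_nonneg_left hK h.hη.le
  have h6 := h.hηc
  nlinarith

lemma g1 (h : Cst η c₁) {n x y : ℕ} (hn : 2 ≤ n) (hx : 1 ≤ x) (hy : 1 ≤ y) :
    phi η c₁ (n + 2 + (x + y)) ≤ phi η c₁ n - 1 + (phi η c₁ (x + 1) - 2) +
      (phi η c₁ (y + 1) - 2) := by
  rw [phi_of_two_le _ _ (by omega), phi_of_two_le _ _ hn, phi_of_two_le _ _ (by omega),
    phi_of_two_le _ _ (by omega)]
  have hc := h.hc
  have h1 := phi_key h (((n + 2 + (x + y) : ℕ) : ℝ) - c₁)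
    (max ((n : ℝ) - c₁) 0 + max (((x + 1 : ℕ) : ℝ) - c₁) 0 + max (((y + 1 : ℕ) : ℝ) - c₁) 0)
    (2 * c₁) (by
      have e1 := le_max_left ((n : ℝ) - c₁) 0
      have e2 := le_max_left (((x + 1 : ℕ) : ℝ) - c₁) 0
      have e3 := le_max_left (((y + 1 : ℕ) : ℝ) - c₁) 0
      push_cast at e2 e3 ⊢
      linarith) (by positivity) (by linarith) (by linarith)
  linarith

lemma g2 (h : Cst η c₁) {n x : ℕ} (hn : 2 ≤ n) (hx : 1 ≤ x) :
    phi η c₁ (n + 2 + x) ≤ phi η c₁ n + (phi η c₁ (x + 1) - 2) := by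
  rw [phi_of_two_le _ _ (by omega), phi_of_two_le _ _ hn, phi_of_two_le _ _ (by omega)]
  have hc := h.hc
  have h1 := phi_key h (((n + 2 + x : ℕ) : ℝ) - c₁)
    (max ((n : ℝ) - c₁) 0 + max (((x + 1 : ℕ) : ℝ) - c₁) 0)
    (c₁ + 1) (by
      have e1 := le_max_left ((n : ℝ) - c₁) 0
      have e2 := le_max_left (((x + 1 : ℕ) : ℝ) - c₁) 0
      push_cast at e2 ⊢
      linarith) (by positivity) (by linarith) (by linarith)
  linarith

lemma g3 (h : Cst η c₁) {n x : ℕ} (hn : 2 ≤ n) :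
    phi η c₁ (n + 2 + x) ≤ phi η c₁ n - 1 + (2 + η * max ((x : ℝ) - c₁) 0) := by
  rw [phi_of_two_le _ _ (by omega), phi_of_two_le _ _ hn]
  have hc := h.hc
  have h1 := phi_key h (((n + 2 + x : ℕ) : ℝ) - c₁)
    (max ((n : ℝ) - c₁) 0 + max ((x : ℝ) - c₁) 0)
    (c₁ + 2) (by
      have e1 := le_max_left ((n : ℝ) - c₁) 0
      have e2 := le_max_left ((x : ℝ) - c₁) 0
      push_cast at e2 ⊢
      linarith) (by positivity) (by linarith) (by linarith)
  linarith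

lemma g4 (h : Cst η c₁) {x y : ℕ} (hy : 1 ≤ y) :
    phi η c₁ (x + y + 3) ≤ 1 + (2 + η * max ((x : ℝ) - c₁) 0) + (phi η c₁ (y + 1) - 2) := by
  rw [phi_of_two_le _ _ (by omega), phi_of_two_le _ _ (by omega)]
  have hc := h.hc
  have h1 := phi_key h (((x + y + 3 : ℕ) : ℝ) - c₁)
    (max ((x : ℝ) - c₁) 0 + max (((y + 1 : ℕ) : ℝ) - c₁) 0)
    (c₁ + 2) (by
      have e1 := le_max_left ((x : ℝ) - c₁) 0
      have e2 := le_max_left (((y + 1 : ℕ) : ℝ) - c₁) 0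
      push_cast at e2 ⊢
      linarith) (by positivity) (by linarith) (by linarith)
  linarith

lemma g5 (h : Cst η c₁) {x y z : ℕ} (hx : 1 ≤ x) (hy : 1 ≤ y) (hz : 1 ≤ z) :
    phi η c₁ (x + (y + z) + 3) ≤ 1 + (phi η c₁ (x + 1) - 2) + (phi η c₁ (y + 1) - 2)
      + (phi η c₁ (z + 1) - 2) := by
  rw [phi_of_two_le _ _ (by omega), phi_of_two_le _ _ (by omega), phi_of_two_le _ _ (by omega),
    phi_of_two_le _ _ (by omega)]
  have hc := h.hc
  have h1 := phi_key h (((x + (y + z) + 3 : ℕ) : ℝ) - c₁)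
    (max (((x + 1 : ℕ) : ℝ) - c₁) 0 + max (((y + 1 : ℕ) : ℝ) - c₁) 0 +
      max (((z + 1 : ℕ) : ℝ) - c₁) 0)
    (2 * c₁) (by
      have e1 := le_max_left (((x + 1 : ℕ) : ℝ) - c₁) 0
      have e2 := le_max_left (((y + 1 : ℕ) : ℝ) - c₁) 0
      have e3 := le_max_left (((z + 1 : ℕ) : ℝ) - c₁) 0
      push_cast at e1 e2 e3 ⊢
      linarith) (by positivity) (by linarith) (by linarith)
  linarith

lemma g6 (h : Cst η c₁) {y : ℕ} (hy : 1 ≤ y) :
    phi η c₁ (1 + y + 3) ≤ 3 + (phi η c₁ (y + 1) - 2) := by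
  rw [phi_of_two_le _ _ (by omega), phi_of_two_le _ _ (by omega)]
  have hc := h.hc
  have h1 := phi_key h (((1 + y + 3 : ℕ) : ℝ) - c₁)
    (max (((y + 1 : ℕ) : ℝ) - c₁) 0)
    3 (by
      have e2 := le_max_left (((y + 1 : ℕ) : ℝ) - c₁) 0
      push_cast at e2 ⊢
      linarith) (by positivity) (by linarith) (by linarith)
  linarith

lemma phi_ge_three (h : Cst η c₁) {n : ℕ} (hn : 2 ≤ n) : 3 ≤ phi η c₁ n := by
  rw [phi_of_two_le _ _ hn]
  have := h.hη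
  have : 0 ≤ η * max ((n : ℝ) - c₁) 0 := by positivity
  linarith

end phi

variable {V : Type} [Fintype V]

/-- The number of neighbours in the base. -/
noncomputable def out (H : SimpleGraph V) (S : Finset V) (v : V) : ℕ := (nbs H v \ S).card

/-- The remaining neighbours of `u` in `A`. -/
noncomputable def oth (H : SimpleGraph V) (A : Finset V) (u z₁ z₂ z₃ : V) : Finset V :=
  (nbs H u ∩ A).filter fun x => x ≠ z₁ ∧ x ≠ z₂ ∧ x ≠ z₃

lemma mem_oth (H : SimpleGraph V) (A : Finset V) (u z₁ z₂ z₃ x : V) :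
    x ∈ oth H A u z₁ z₂ z₃ ↔ H.Adj u x ∧ x ∈ A ∧ x ≠ z₁ ∧ x ≠ z₂ ∧ x ≠ z₃ := by
  unfold oth
  rw [Finset.mem_filter, Finset.mem_inter, mem_nbs]
  tauto

/-- Outcome (I0). -/
def OutI0 (H : SimpleGraph V) (A : Finset V) (u z₁ z₂ z₃ : V) : Prop :=
  7 ≤ (nbs H z₂).card ∧ ∀ z ∈ oth H A u z₁ z₂ z₃, 6 ≤ (nbs H z).card

/-- Outcome (I5). -/
def OutI5 (H : SimpleGraph V) (A : Finset V) (u z₁ z₂ z₃ : V) : Prop :=
  (nbs H z₂).card = 5 ∧ (∀ z ∈ oth H A u z₁ z₂ z₃, 6 ≤ (nbs H z).card) ∧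
    ∀ x ∈ A, H.Adj z₂ x → x ≠ u → x ≠ z₁ → x ≠ z₃ → 6 ≤ (nbs H x).card

/-- Outcome (IX). -/
def OutIX (H : SimpleGraph V) (S A : Finset V) (u z₁ z₂ z₃ : V) : Prop :=
  (nbs H z₂).card = 5 ∧ (∀ x ∈ A, H.Adj z₂ x → x = u ∨ x = z₁ ∨ x = z₃) ∧
    out H S z₂ = 2 ∧ 1 ≤ out H S z₁ ∧ 1 ≤ out H S z₃ ∧ out H S z₁ + out H S z₃ = 5

section

variable {η c₁ : ℝ} {H : SimpleGraph V} {S A : Finset V} {u z₁ z₃ : V} {Hs : SimpleGraph V}
  {A₁ : Finset V}

/-- The degree of a surviving vertex. -/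
lemma deg_ge (hC : Ctx η c₁ H S A) (hR : RedAt η c₁ H S A u z₁ z₃ Hs A₁) (hu1 : H.Adj u z₁)
    (h13 : z₁ ≠ z₃) (v : V) (hv : v ∈ A₁) (hv1 : v ≠ z₁) :
    5 + (if H.Adj u v then 1 else 0) + (if v ∈ cnb (dl H {u}) z₁ z₃ then 1 else 0) +
      (nbs H v ∩ lset A A₁ u z₃).card ≤ (nbs H v).card := by
  have hvu : v ≠ u := fun h => u_notMem hR hu1 (h ▸ hv)
  have hv3 : v ≠ z₃ := fun h => z3_notMem hR hu1 (h ▸ hv)
  have h1 := card_nbs_mgV (dl H {u}) z₁ z₃ h13 v hv1 hv3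
  have h2 : (nbs H v).card = (nbs (dl H {u}) v).card + (if H.Adj u v then 1 else 0) := by
    have h3 : nbs (dl H {u}) v = (nbs H v).erase u := by
      ext y
      simp only [mem_nbs, dl_adj, Finset.mem_singleton, Finset.mem_erase]
      tauto
    rw [h3]
    by_cases h4 : H.Adj u v
    · have h5 : u ∈ nbs H v := (mem_nbs H v u).mpr h4.symm
      rw [if_pos h4, Finset.card_erase_of_mem h5]
      have : 0 < (nbs H v).card := Finset.card_pos.mpr ⟨u, h5⟩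
      omega
    · have h5 : u ∉ nbs H v := fun h => h4 ((mem_nbs H v u).mp h).symm
      rw [if_neg h4, Finset.erase_eq_of_notMem h5]
      rfl
  have h3 : (nbs Hs v).card + (nbs H v ∩ lset A A₁ u z₃).card ≤
      (nbs (mgV (dl H {u}) z₁ z₃) v).card := by
    rw [← Finset.card_union_of_disjoint]
    · refine Finset.card_le_card fun y hy => ?_
      rw [Finset.mem_union, mem_nbs, Finset.mem_inter, mem_nbs] at hy
      rw [mem_nbs]
      rcases hy with hy | ⟨hy, hyl⟩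
      · exact hR.le hy
      · rw [mgV_adj]
        rw [mem_lset] at hyl
        refine ⟨hv3, hyl.2.2.1, hy.ne, Or.inl ⟨hy, ?_, ?_⟩⟩
        · simpa using hvu
        · simpa using hyl.2.1
    · rw [Finset.disjoint_left]
      intro y hy hy'
      rw [mem_nbs] at hy
      rw [Finset.mem_inter] at hy'
      exact avoid hC hR hu1 hy.symm (Finset.mem_insert_of_mem hy'.2)
  have h4 := hR.deg5 v hv
  omega

/-- A closed set of lost vertices whose only neighbour of `u` is `z₂`. -/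
lemma dd_big (hC : Ctx η c₁ H S A) (hR : RedAt η c₁ H S A u z₁ z₃ Hs A₁) (hu : u ∈ A)
    (hu1 : H.Adj u z₁) (hz1 : z₁ ∈ A) (hz3 : z₃ ∈ A) (hu3 : H.Adj u z₃)
    (X : Finset V) (hX : X ⊆ lset A A₁ u z₃)
    (hcl : ∀ a ∈ X, ∀ b ∈ lset A A₁ u z₃, b ∉ X → ¬ H.Adj a b) (z₂ : V) (hz2 : z₂ ∈ X)
    (hnb : ∀ x ∈ X, H.Adj u x → x = z₂) (h5 : ¬ (X = {z₂} ∧ (nbs H z₂).card = 5)) :
    2 * (2 + η * max ((X.card : ℝ) - c₁) 0) ≤ dd H u X := by
  have hcst := hC.cst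
  have hA : X ⊆ A := fun x hx => by
    have := hX hx
    rw [mem_lset] at this
    exact this.1
  have h1 : (nbs H u ∩ X).card ≤ 1 := by
    refine Finset.card_le_one.mpr ?_
    intro a ha b hb
    rw [Finset.mem_inter, mem_nbs] at ha hb
    rw [hnb a ha.2 ha.1, hnb b hb.2 hb.1]
  by_cases h2 : 2 ≤ X.card
  · have h3 := g_ge hC hR hu hu1 hz1 hz3 hu3 X hX ⟨z₂, hz2⟩ hcl
    rw [phi_of_two_le _ _ h2] at h3
    unfold dd
    push_cast
    have h4 : ((nbs H u ∩ X).card : ℝ) ≤ 1 := by exact_mod_cast h1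
    linarith
  · have hcard : X.card = 1 := by
      have : 0 < X.card := Finset.card_pos.mpr ⟨z₂, hz2⟩
      omega
    obtain ⟨y, hy⟩ := Finset.card_eq_one.mp hcard
    have hyz : z₂ = y := by
      rw [hy] at hz2
      exact Finset.mem_singleton.mp hz2
    subst hyz
    have h6 : (nbs H z₂).card ≠ 5 := fun h => h5 ⟨hy, h⟩
    have h7 := hC.deg5 z₂ (hA hz2)
    have h8 : 6 ≤ (nbs H z₂).card := by omega
    have h9 : max ((X.card : ℝ) - c₁) 0 = 0 := by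
      rw [hcard]
      have := hcst.hc
      exact max_eq_right (by push_cast; linarith)
    rw [h9]
    have h10 : dd H u X = 2 * (nbs H z₂).card - 6 - 2 * (nbs H u ∩ X).card := by
      unfold dd
      rw [hcard, hy, e2_singleton]
      push_cast
      ring
    rw [h10]
    have h4 : ((nbs H u ∩ X).card : ℝ) ≤ 1 := by exact_mod_cast h1
    have h11 : (6 : ℝ) ≤ (nbs H z₂).card := by exact_mod_cast h8
    push_cast
    linarith

/-- A closed nonempty set of lost vertices which contains no neighbour of `u`. -/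
lemma dd_big0 (hC : Ctx η c₁ H S A) (hR : RedAt η c₁ H S A u z₁ z₃ Hs A₁) (hu : u ∈ A)
    (hu1 : H.Adj u z₁) (hz1 : z₁ ∈ A) (hz3 : z₃ ∈ A) (hu3 : H.Adj u z₃)
    (X : Finset V) (hX : X ⊆ lset A A₁ u z₃)
    (hcl : ∀ a ∈ X, ∀ b ∈ lset A A₁ u z₃, b ∉ X → ¬ H.Adj a b) (x : V) (hx : x ∈ X)
    (hnb : ∀ x ∈ X, ¬ H.Adj u x) :
    2 * (2 + η * max ((X.card : ℝ) - c₁) 0) ≤ dd H u X := by
  have hcst := hC.cst
  have hA : X ⊆ A := fun x hx => by
    have := hX hx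
    rw [mem_lset] at this
    exact this.1
  have h1 : (nbs H u ∩ X).card = 0 := by
    rw [Finset.card_eq_zero, Finset.eq_empty_iff_forall_notMem]
    intro a ha
    rw [Finset.mem_inter, mem_nbs] at ha
    exact hnb a ha.2 ha.1
  by_cases h2 : 2 ≤ X.card
  · have h3 := g_ge hC hR hu hu1 hz1 hz3 hu3 X hX ⟨x, hx⟩ hcl
    rw [phi_of_two_le _ _ h2] at h3
    unfold dd
    rw [h1]
    push_cast
    linarith
  · have hcard : X.card = 1 := by
      have : 0 < X.card := Finset.card_pos.mpr ⟨x, hx⟩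
      omega
    obtain ⟨y, hy⟩ := Finset.card_eq_one.mp hcard
    have hyz : x = y := by
      rw [hy] at hx
      exact Finset.mem_singleton.mp hx
    subst hyz
    have h7 := hC.deg5 x (hA hx)
    have h9 : max ((X.card : ℝ) - c₁) 0 = 0 := by
      rw [hcard]
      have := hcst.hc
      exact max_eq_right (by push_cast; linarith)
    rw [h9]
    have h10 : dd H u X = 2 * (nbs H x).card - 6 := by
      unfold dd
      rw [h1, hcard, hy, e2_singleton]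
      push_cast
      ring
    rw [h10]
    have h11 : (5 : ℝ) ≤ (nbs H x).card := by exact_mod_cast h7
    push_cast
    linarith

/-- The case `n₁ = 1`: (2.5). -/
lemma one_case (hC : Ctx η c₁ H S A) (hR : RedAt η c₁ H S A u z₁ z₃ Hs A₁) (hu : u ∈ A)
    (hdeg : (nbs H u).card = 5) (hz : ¬ H.Adj z₁ z₃) (h13 : z₁ ≠ z₃)
    (hu1 : H.Adj u z₁) (hz1 : z₁ ∈ A) (hz3 : z₃ ∈ A) (hu3 : H.Adj u z₃) (hA1 : A₁.card = 1) :
    e2 H A - 6 * A.card = 2 * (out H S z₁ + out H S z₃) - 8 + dd H u (lset A A₁ u z₃) ∧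
      1 ≤ out H S z₁ ∧ 1 ≤ out H S z₃ ∧ 5 ≤ out H S z₁ + out H S z₃ := by
  set L := lset A A₁ u z₃ with hL
  have hz1' := z1_mem hR (hC.sub hz1)
  have hA1' : A₁ = {z₁} := by
    obtain ⟨y, hy⟩ := Finset.card_eq_one.mp hA1
    rw [hy] at hz1'
    rw [hy, Finset.mem_singleton.mp hz1']
  have hcard := card_A hR hu hu1 hz3 hu3
  rw [← hL, hA1] at hcard
  have hLmem : ∀ x, x ∈ L ↔ x ∈ A ∧ x ≠ u ∧ x ≠ z₃ ∧ x ≠ z₁ := by
    intro x
    rw [hL, mem_lset, hA1', Finset.mem_singleton]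
  have hAeq : A = L ∪ ({u} ∪ ({z₁} ∪ {z₃})) := by
    ext x
    simp only [Finset.mem_union, Finset.mem_singleton, hLmem]
    constructor
    · intro hx
      by_cases h1 : x = u
      · exact Or.inr (Or.inl h1)
      · by_cases h2 : x = z₁
        · exact Or.inr (Or.inr (Or.inl h2))
        · by_cases h3 : x = z₃
          · exact Or.inr (Or.inr (Or.inr h3))
          · exact Or.inl ⟨hx, h1, h3, h2⟩
    · rintro (h | rfl | rfl | rfl)
      · exact h.1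
      · exact hu
      · exact hz1
      · exact hz3
  have hstar : ∀ y, Hs.Adj z₁ y → y ∉ S := by
    intro y hy hyS
    rcases active_or hR hy.symm with h | h
    · rw [hA1', Finset.mem_singleton] at h
      exact hy.ne' h
    · exact h hyS
  have hactive : ∀ x y, H.Adj x y → y ∈ S → y ∈ A := by
    intro x y hxy hy
    by_contra h
    exact hC.inact y hy h x hxy.symm
  have key : ∀ z, z = z₁ ∨ z = z₃ → ∀ y, H.Adj z y → (y ∉ L ∧ y ≠ u) → y ∉ S := by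
    intro z hzz y hzy hyL hyS
    have hyA := hactive z y hzy hyS
    rw [hLmem] at hyL
    have : y = z₃ ∨ y = z₁ := by
      by_contra hcon
      push Not at hcon
      exact hyL.1 ⟨hyA, hyL.2, hcon.1, hcon.2⟩
    rcases this with h | h <;> rcases hzz with h' | h'
    · rw [h, h'] at hzy; exact hz hzy
    · rw [h, h'] at hzy; exact hzy.ne rfl
    · rw [h, h'] at hzy; exact hzy.ne rfl
    · rw [h, h'] at hzy; exact hz hzy.symm
  have hLS : L ⊆ S := fun x hx => hC.sub ((hLmem x).mp hx).1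
  have n1 : nbs (dl H L) u = nbs H u \ L := by
    ext y
    simp only [mem_nbs, dl_adj, Finset.mem_sdiff, hLmem]
    tauto
  have n2 : nbs (dl (dl H L) {u}) z₁ = nbs H z₁ \ S := by
    ext y
    simp only [mem_nbs, dl_adj, Finset.mem_sdiff, Finset.mem_singleton]
    constructor
    · rintro ⟨⟨h1, _, h2⟩, _, h3⟩
      exact ⟨h1, key z₁ (Or.inl rfl) y h1 ⟨h2, h3⟩⟩
    · rintro ⟨h1, h2⟩
      exact ⟨⟨h1, fun h => ((hLmem _).mp h).2.2.2 rfl, fun h => h2 (hLS h)⟩, hu1.ne',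
        fun h => h2 (h ▸ hC.sub hu)⟩
  have n3 : nbs (dl (dl (dl H L) {u}) {z₁}) z₃ = nbs H z₃ \ S := by
    ext y
    simp only [mem_nbs, dl_adj, Finset.mem_sdiff, Finset.mem_singleton]
    constructor
    · rintro ⟨⟨⟨h1, _, h2⟩, _, h3⟩, _⟩
      exact ⟨h1, key z₃ (Or.inr rfl) y h1 ⟨h2, h3⟩⟩
    · rintro ⟨h1, h2⟩
      exact ⟨⟨⟨h1, fun h => ((hLmem _).mp h).2.2.1 rfl, fun h => h2 (hLS h)⟩, hu3.ne',
        fun h => h2 (h ▸ hC.sub hu)⟩, h13.symm, fun h => h2 (h ▸ hC.sub hz1)⟩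
  have hcount : e2 H A = e2 H L + 2 * ((nbs H u).card - (nbs H u ∩ L).card) +
      2 * out H S z₁ + 2 * out H S z₃ := by
    conv_lhs => rw [hAeq]
    rw [e2_union, e2_union, e2_union, e2_singleton, e2_singleton, e2_singleton, n1, n2, n3]
    have h2 : (nbs H u \ L).card + (nbs H u ∩ L).card = (nbs H u).card :=
      Finset.card_sdiff_add_card_inter _ _
    unfold out
    zify at h2
    linarith
  refine ⟨?_, ?_, ?_, ?_⟩
  · rw [hcount, hdeg, hcard]
    unfold dd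
    push_cast
    ring
  · obtain ⟨x, hx, hx1, _⟩ := hR.x1
    exact Finset.card_pos.mpr ⟨x, by rw [Finset.mem_sdiff, mem_nbs]; exact ⟨hx1, hstar x hx⟩⟩
  · obtain ⟨x, hx, hx3, _⟩ := hR.x3
    exact Finset.card_pos.mpr ⟨x, by rw [Finset.mem_sdiff, mem_nbs]; exact ⟨hx3, hstar x hx⟩⟩
  · have h1 := hR.deg5 z₁ hz1'
    refine h1.trans ?_
    unfold out
    refine le_trans (Finset.card_le_card ?_) (Finset.card_union_le _ _)
    intro y hy
    rw [mem_nbs] at hy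
    rw [Finset.mem_union, Finset.mem_sdiff, Finset.mem_sdiff, mem_nbs, mem_nbs]
    rcases (hs_adj hR hu1 hy).2.2.2.2.2 with h | h | h
    · exact Or.inl ⟨h, hstar y hy⟩
    · exact Or.inr ⟨h.2, hstar y hy⟩
    · exact absurd h.1 hy.ne'

end

end Pool.Agent.Helper15.U5
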