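import Pool.Agent.Helper15.U5.Ctx

/-!
# Consequences of a reduction step: (2.2)-(2.5)
-/

set_option autoImplicit false

namespace Pool.Agent.Helper15.U5

open SimpleGraph Finset
open scoped Classical

variable {V : Type} [Fintype V]

omit [Fintype V] in
lemma dl_mono {X : SimpleGraph V} {A C : Finset V} (h : A ⊆ C) : dl X C ≤ dl X A :=
  fun _ _ hh => ⟨hh.1, fun h1 => hh.2.1 (h h1), fun h1 => hh.2.2 (h h1)⟩

/-- Twice the number `g(X) - e(u, X)`. -/
noncomputable def dd (H : SimpleGraph V) (u : V) (X : Finset V) : ℤ :=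
  e2 H X - 6 * X.card - 2 * (nbs H u ∩ X).card

lemma dd_union (H : SimpleGraph V) (u : V) (X Y : Finset V) (hXY : Disjoint X Y)
    (h : ∀ a ∈ X, ∀ b ∈ Y, ¬ H.Adj a b) : dd H u (X ∪ Y) = dd H u X + dd H u Y := by
  unfold dd
  rw [e2_union_of_sep H X Y hXY h, Finset.card_union_of_disjoint hXY, Finset.inter_union_distrib_left,
    Finset.card_union_of_disjoint]
  · push_cast; ring
  · exact Disjoint.mono Finset.inter_subset_right Finset.inter_subset_right hXY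

lemma dd_empty (H : SimpleGraph V) (u : V) : dd H u ∅ = 0 := by
  unfold dd e2
  have : dl H ∅ = H := by
    ext x y; rw [dl_adj]; simp
  rw [this]; simp

lemma e2_insert (H : SimpleGraph V) (u : V) (X : Finset V) (hu : u ∉ X) :
    e2 H (insert u X) = e2 H X + 2 * ((nbs H u).card - (nbs H u ∩ X).card) := by
  have h0 : insert u X = X ∪ {u} := by rw [Finset.union_comm]; rfl
  rw [h0, e2_union, e2_singleton]
  have h1 : nbs (dl H X) u = nbs H u \ X := by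
    ext y
    simp only [mem_nbs, dl_adj, Finset.mem_sdiff]
    tauto
  have h2 : (nbs H u \ X).card + (nbs H u ∩ X).card = (nbs H u).card :=
    Finset.card_sdiff_add_card_inter _ _
  rw [h1]
  zify at h2
  linarith

/-- The vertices which are lost in the reduction. -/
noncomputable def lset (A A₁ : Finset V) (u z₃ : V) : Finset V := A \ insert u (insert z₃ A₁)

omit [Fintype V] in
lemma mem_lset (A A₁ : Finset V) (u z₃ x : V) :
    x ∈ lset A A₁ u z₃ ↔ x ∈ A ∧ x ≠ u ∧ x ≠ z₃ ∧ x ∉ A₁ := by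
  unfold lset
  simp only [Finset.mem_sdiff, Finset.mem_insert, not_or]

section

variable {η c₁ : ℝ} {H : SimpleGraph V} {S A : Finset V} {u z₁ z₃ : V} {Hs : SimpleGraph V}
  {A₁ : Finset V}

lemma hs_adj (hR : RedAt η c₁ H S A u z₁ z₃ Hs A₁) (hu1 : H.Adj u z₁) {x y : V}
    (h : Hs.Adj x y) : x ≠ z₃ ∧ y ≠ z₃ ∧ x ≠ y ∧ x ≠ u ∧ y ≠ u ∧
      (H.Adj x y ∨ (x = z₁ ∧ H.Adj z₃ y) ∨ (y = z₁ ∧ H.Adj z₃ x)) := by
  have h1 := hR.le h
  rw [mgV_adj] at h1
  obtain ⟨h2, h3, h4, h5⟩ := h1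
  simp only [dl_adj, Finset.mem_singleton] at h5
  refine ⟨h2, h3, h4, ?_⟩
  rcases h5 with h5 | h5 | h5
  · exact ⟨h5.2.1, h5.2.2, Or.inl h5.1⟩
  · exact ⟨by rw [h5.1]; exact hu1.ne', h5.2.2.2, Or.inr (Or.inl ⟨h5.1, h5.2.1⟩)⟩
  · exact ⟨h5.2.2.2, by rw [h5.1]; exact hu1.ne', Or.inr (Or.inr ⟨h5.1, h5.2.1⟩)⟩

lemma z1_mem (hR : RedAt η c₁ H S A u z₁ z₃ Hs A₁) (hz1 : z₁ ∈ S) : z₁ ∈ A₁ := by
  by_contra h
  obtain ⟨x, hx, _⟩ := hR.x1
  exact hR.inact z₁ hz1 h x hx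

lemma u_notMem (hR : RedAt η c₁ H S A u z₁ z₃ Hs A₁) (hu1 : H.Adj u z₁) : u ∉ A₁ := by
  intro h
  have h1 := hR.deg5 u h
  have h2 : (nbs Hs u).Nonempty := Finset.card_pos.mp (by omega)
  obtain ⟨y, hy⟩ := h2
  rw [mem_nbs] at hy
  exact (hs_adj hR hu1 hy).2.2.2.1 rfl

lemma z3_notMem (hR : RedAt η c₁ H S A u z₁ z₃ Hs A₁) (hu1 : H.Adj u z₁) : z₃ ∉ A₁ := by
  intro h
  have h1 := hR.deg5 z₃ h
  have h2 : (nbs Hs z₃).Nonempty := Finset.card_pos.mp (by omega)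
  obtain ⟨y, hy⟩ := h2
  rw [mem_nbs] at hy
  exact (hs_adj hR hu1 hy).1 rfl

lemma active_or (hR : RedAt η c₁ H S A u z₁ z₃ Hs A₁) {x y : V} (h : Hs.Adj x y) :
    x ∈ A₁ ∨ x ∉ S := by
  by_contra hcon
  push Not at hcon
  exact hR.inact x hcon.2 hcon.1 y h

/-- An edge of the reduced graph avoids `u` and the lost vertices. -/
lemma avoid (hC : Ctx η c₁ H S A) (hR : RedAt η c₁ H S A u z₁ z₃ Hs A₁) (hu1 : H.Adj u z₁)
    {x y : V} (h : Hs.Adj x y) : x ∉ insert u (lset A A₁ u z₃) := by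
  intro h1
  rw [Finset.mem_insert] at h1
  rcases h1 with h1 | h1
  · exact (hs_adj hR hu1 h).2.2.2.1 h1
  · rw [mem_lset] at h1
    rcases active_or hR h with h2 | h2
    · exact h1.2.2.2 h2
    · exact h2 (hC.sub h1.1)

lemma reach_active (hR : RedAt η c₁ H S A u z₁ z₃ Hs A₁) (s : V) (hs : s ∈ A₁) (hsz : s ≠ z₁) :
    ∃ b, b ∉ S ∧ (dl Hs {z₁}).Reachable s b := by
  by_contra hcon
  set K : Finset V := A₁.filter fun s => s ≠ z₁ ∧ ¬ ∃ b, b ∉ S ∧ (dl Hs {z₁}).Reachable s b with hK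
  obtain ⟨a, ha, b, hb, hbz, hab⟩ := hR.cut1 K (Finset.filter_subset _ _)
    ⟨s, by rw [hK, Finset.mem_filter]; exact ⟨hs, hsz, hcon⟩⟩
    (by rw [hK, Finset.mem_filter]; exact fun h => h.2.1 rfl)
  rw [hK, Finset.mem_filter] at ha
  have hadj : (dl Hs {z₁}).Adj a b := by
    rw [dl_adj]
    exact ⟨hab, by simpa using ha.2.1, by simpa using hbz⟩
  rcases active_or hR hab.symm with h1 | h1
  · have h2 : ∃ b', b' ∉ S ∧ (dl Hs {z₁}).Reachable b b' := by
      by_contra h3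
      exact hb (by rw [hK, Finset.mem_filter]; exact ⟨h1, hbz, h3⟩)
    obtain ⟨b', hb', hr⟩ := h2
    exact ha.2.2 ⟨b', hb', hadj.reachable.trans hr⟩
  · exact ha.2.2 ⟨b, h1, hadj.reachable⟩

lemma dl_hs_le (hC : Ctx η c₁ H S A) (hR : RedAt η c₁ H S A u z₁ z₃ Hs A₁) (hu1 : H.Adj u z₁) :
    dl Hs {z₁} ≤ dl H (insert u (lset A A₁ u z₃)) := by
  intro x y h
  rw [dl_adj] at h
  obtain ⟨h1, h2, h3⟩ := h
  rw [dl_adj]
  refine ⟨?_, avoid hC hR hu1 h1, avoid hC hR hu1 h1.symm⟩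
  rcases (hs_adj hR hu1 h1).2.2.2.2.2 with h4 | h4 | h4
  · exact h4
  · exact absurd h4.1 (by simpa using h2)
  · exact absurd h4.1 (by simpa using h3)

/-- All the vertices which are not lost are connected with the base. -/
lemma reach_base (hC : Ctx η c₁ H S A) (hR : RedAt η c₁ H S A u z₁ z₃ Hs A₁) (hu1 : H.Adj u z₁)
    (hz1 : z₁ ∈ A) (hz3 : z₃ ∈ A) (hu3 : H.Adj u z₃) (s : V) (hs : s ∈ A) (hsu : s ≠ u)
    (hsl : s ∉ lset A A₁ u z₃) :
    ∃ b, b ∉ S ∧ (dl H (insert u (lset A A₁ u z₃))).Reachable s b := by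
  have h1 : ∀ x, x ∈ A₁ → x ≠ z₁ → ∃ b, b ∉ S ∧
      (dl H (insert u (lset A A₁ u z₃))).Reachable x b := by
    intro x hx hxz
    obtain ⟨b, hb, hr⟩ := reach_active hR x hx hxz
    exact ⟨b, hb, hr.mono (dl_hs_le hC hR hu1)⟩
  have h2 : ∀ x y, Hs.Adj z₁ x → H.Adj y x → y ∉ insert u (lset A A₁ u z₃) → ∃ b, b ∉ S ∧
      (dl H (insert u (lset A A₁ u z₃))).Reachable y b := by
    intro x y hx hyx hy
    have hadj : (dl H (insert u (lset A A₁ u z₃))).Adj y x :=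
      ⟨hyx, hy, avoid hC hR hu1 hx.symm⟩
    rcases active_or hR hx.symm with h3 | h3
    · obtain ⟨b, hb, hr⟩ := h1 x h3 hx.ne'
      exact ⟨b, hb, hadj.reachable.trans hr⟩
    · exact ⟨x, h3, hadj.reachable⟩
  rw [mem_lset] at hsl
  push Not at hsl
  by_cases hs3 : s = z₃
  · subst hs3
    obtain ⟨x, hx, hx3, _⟩ := hR.x3
    refine h2 x s hx hx3 ?_
    rw [Finset.mem_insert, mem_lset]
    rintro (h | h)
    · exact hsu h
    · exact h.2.2.1 rfl
  · have hs1 := hsl hs hsu hs3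
    by_cases hsz : s = z₁
    · subst hsz
      obtain ⟨x, hx, hx1, _⟩ := hR.x1
      exact h2 x s hx hx1 (avoid hC hR hu1 hx)
    · exact h1 s hs1 hsz

lemma base_le (hC : Ctx η c₁ H S A) (hu : u ∈ A) :
    dl H S ≤ dl H (insert u (lset A A₁ u z₃)) := by
  refine dl_mono (Finset.insert_subset (hC.sub hu) ?_)
  intro x hx
  rw [mem_lset] at hx
  exact hC.sub hx.1

/-- (2.2): `z₁` and `z₃` are connected outside `u` and the lost vertices. -/
lemma reach_z (hC : Ctx η c₁ H S A) (hR : RedAt η c₁ H S A u z₁ z₃ Hs A₁) (hu : u ∈ A)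
    (hu1 : H.Adj u z₁) (hz1 : z₁ ∈ A) (hz3 : z₃ ∈ A) (hu3 : H.Adj u z₃) :
    (dl H (insert u (lset A A₁ u z₃))).Reachable z₁ z₃ := by
  have hz1' := z1_mem hR (hC.sub hz1)
  obtain ⟨b, hb, hr⟩ := reach_base hC hR hu1 hz1 hz3 hu3 z₁ hz1 hu1.ne'
    (by rw [mem_lset]; exact fun h => h.2.2.2 hz1')
  obtain ⟨b', hb', hr'⟩ := reach_base hC hR hu1 hz1 hz3 hu3 z₃ hz3 hu3.ne'
    (by rw [mem_lset]; exact fun h => h.2.2.1 rfl)
  exact (hr.trans ((hC.base b b' hb hb').mono (base_le hC hu))).trans hr'.symm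

/-- The hypothesis of (IH) for a closed set of lost vertices together with `u`. -/
lemma reach_closed (hC : Ctx η c₁ H S A) (hR : RedAt η c₁ H S A u z₁ z₃ Hs A₁) (hu : u ∈ A)
    (hu1 : H.Adj u z₁) (hz1 : z₁ ∈ A) (hz3 : z₃ ∈ A) (hu3 : H.Adj u z₃)
    (X : Finset V) (hX : X ⊆ lset A A₁ u z₃)
    (hcl : ∀ a ∈ X, ∀ b ∈ lset A A₁ u z₃, b ∉ X → ¬ H.Adj a b) (s : V) (hs : s ∈ A)
    (hsX : s ∉ insert u X) : ∃ b, b ∉ S ∧ (dl H (insert u X)).Reachable s b := by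
  have hXS : insert u X ⊆ S := by
    refine Finset.insert_subset (hC.sub hu) fun x hx => ?_
    have := hX hx
    rw [mem_lset] at this
    exact hC.sub this.1
  have hle : dl H (insert u (lset A A₁ u z₃)) ≤ dl H (insert u X) :=
    dl_mono (Finset.insert_subset_insert u hX)
  by_contra hcon
  set K : Finset V := A.filter fun s => s ∉ insert u X ∧
    ¬ ∃ b, b ∉ S ∧ (dl H (insert u X)).Reachable s b with hK
  have hKL : ∀ x ∈ K, x ∈ lset A A₁ u z₃ := by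
    intro x hx
    rw [hK, Finset.mem_filter] at hx
    by_contra hxl
    obtain ⟨b, hb, hr⟩ := reach_base hC hR hu1 hz1 hz3 hu3 x hx.1
      (fun h => hx.2.1 (by rw [h]; exact Finset.mem_insert_self _ _)) hxl
    exact hx.2.2 ⟨b, hb, hr.mono hle⟩
  obtain ⟨a, ha, b, hb, hbu, hab⟩ := hC.cut {u} K (by
      intro x hx y hy hxy
      rw [Finset.mem_singleton] at hx hy
      exact absurd (hx.trans hy.symm) hxy) (by simp) (Finset.filter_subset _ _)
    (by
      rw [Finset.disjoint_singleton_right, hK, Finset.mem_filter]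
      exact fun h => h.2.1 (Finset.mem_insert_self _ _))
    ⟨s, by rw [hK, Finset.mem_filter]; exact ⟨hs, hsX, hcon⟩⟩
  have haK := ha
  rw [hK, Finset.mem_filter] at ha
  have hbX : b ∉ X := by
    intro h
    exact hcl b h a (hKL a haK) (fun h1 => ha.2.1 (Finset.mem_insert_of_mem h1)) hab.symm
  have hbu' : b ≠ u := by simpa using hbu
  have hbuX : b ∉ insert u X := by
    rw [Finset.mem_insert]
    rintro (h | h)
    · exact hbu' h
    · exact hbX h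
  have hadj : (dl H (insert u X)).Adj a b := ⟨hab, ha.2.1, hbuX⟩
  by_cases hbS : b ∈ S
  · have hbA : b ∈ A := by
      by_contra h
      exact hC.inact b hbS h a hab.symm
    have h2 : ∃ b', b' ∉ S ∧ (dl H (insert u X)).Reachable b b' := by
      by_contra h3
      exact hb (by rw [hK, Finset.mem_filter]; exact ⟨hbA, hbuX, h3⟩)
    obtain ⟨b', hb', hr⟩ := h2
    exact ha.2.2 ⟨b', hb', hadj.reachable.trans hr⟩
  · exact ha.2.2 ⟨b, hbS, hadj.reachable⟩

/-- (2.4) -/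
lemma dd_ge (hC : Ctx η c₁ H S A) (hR : RedAt η c₁ H S A u z₁ z₃ Hs A₁) (hu : u ∈ A)
    (hdeg : (nbs H u).card = 5)
    (hu1 : H.Adj u z₁) (hz1 : z₁ ∈ A) (hz3 : z₃ ∈ A) (hu3 : H.Adj u z₃)
    (X : Finset V) (hX : X ⊆ lset A A₁ u z₃)
    (hcl : ∀ a ∈ X, ∀ b ∈ lset A A₁ u z₃, b ∉ X → ¬ H.Adj a b) :
    2 * (phi η c₁ (X.card + 1) - 2) ≤ dd H u X := by
  have huX : u ∉ X := fun h => by
    have := hX h
    rw [mem_lset] at this
    exact this.2.1 rfl
  have hz1' := z1_mem hR (hC.sub hz1)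
  have h1 := hC.IH (insert u X) (by
      refine Finset.insert_subset hu fun x hx => ?_
      have := hX hx
      rw [mem_lset] at this
      exact this.1) ⟨u, Finset.mem_insert_self _ _⟩
    (by
      intro h
      have h2 : z₁ ∈ insert u X := by rw [h]; exact hz1
      rw [Finset.mem_insert] at h2
      rcases h2 with h2 | h2
      · exact hu1.ne' h2
      · have := hX h2
        rw [mem_lset] at this
        exact this.2.2.2 hz1')
    (fun s hs hsX => reach_closed hC hR hu hu1 hz1 hz3 hu3 X hX hcl s hs hsX)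
  rw [Finset.card_insert_of_notMem huX, e2_insert H u X huX, hdeg] at h1
  unfold dd
  push_cast at h1 ⊢
  linarith

lemma g_ge (hC : Ctx η c₁ H S A) (hR : RedAt η c₁ H S A u z₁ z₃ Hs A₁) (hu : u ∈ A)
    (hu1 : H.Adj u z₁) (hz1 : z₁ ∈ A) (hz3 : z₃ ∈ A) (hu3 : H.Adj u z₃)
    (X : Finset V) (hX : X ⊆ lset A A₁ u z₃) (hne : X.Nonempty)
    (hcl : ∀ a ∈ X, ∀ b ∈ lset A A₁ u z₃, b ∉ X → ¬ H.Adj a b) :
    2 * phi η c₁ X.card + 6 * X.card ≤ e2 H X := by
  have huX : u ∉ X := fun h => by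
    have := hX h
    rw [mem_lset] at this
    exact this.2.1 rfl
  have hz1' := z1_mem hR (hC.sub hz1)
  have hz1X : z₁ ∉ X := fun h => by
    have := hX h
    rw [mem_lset] at this
    exact this.2.2.2 hz1'
  have hle : dl H (insert u X) ≤ dl H X := dl_mono (Finset.subset_insert u X)
  refine hC.IH X (fun x hx => ?_) hne (fun h => hz1X (by rw [h]; exact hz1)) ?_
  · have := hX hx
    rw [mem_lset] at this
    exact this.1
  · intro s hs hsX
    by_cases hsu : s = u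
    · subst hsu
      obtain ⟨b, hb, hr⟩ := reach_closed hC hR hu hu1 hz1 hz3 hu3 X hX hcl z₁ hz1 (by
        rw [Finset.mem_insert]
        rintro (h | h)
        · exact hu1.ne' h
        · exact hz1X h)
      have hadj : (dl H X).Adj s z₁ := ⟨hu1, hsX, hz1X⟩
      exact ⟨b, hb, hadj.reachable.trans (hr.mono hle)⟩
    · obtain ⟨b, hb, hr⟩ := reach_closed hC hR hu hu1 hz1 hz3 hu3 X hX hcl s hs (by
        rw [Finset.mem_insert]
        rintro (h | h)
        · exact hsu h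
        · exact hsX h)
      exact ⟨b, hb, hr.mono hle⟩

lemma card_A (hR : RedAt η c₁ H S A u z₁ z₃ Hs A₁) (hu : u ∈ A) (hu1 : H.Adj u z₁)
    (hz3 : z₃ ∈ A) (hu3 : H.Adj u z₃) :
    A.card = A₁.card + 2 + (lset A A₁ u z₃).card := by
  have h1 : insert u (insert z₃ A₁) ⊆ A :=
    Finset.insert_subset hu (Finset.insert_subset hz3 hR.sub)
  have h2 := Finset.card_sdiff_add_card_eq_card h1
  have h3 : (insert u (insert z₃ A₁)).card = A₁.card + 2 := by
    rw [Finset.card_insert_of_notMem, Finset.card_insert_of_notMem (z3_notMem hR hu1)]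
    rw [Finset.mem_insert]
    rintro (h | h)
    · exact hu3.ne h
    · exact u_notMem hR hu1 h
  unfold lset
  omega

/-- (2.3) as an inequality. -/
lemma count_ge (hC : Ctx η c₁ H S A) (hR : RedAt η c₁ H S A u z₁ z₃ Hs A₁) (hu : u ∈ A)
    (hdeg : (nbs H u).card = 5) (hz : ¬ H.Adj z₁ z₃) (h13 : z₁ ≠ z₃)
    (hu1 : H.Adj u z₁) (hz1 : z₁ ∈ A) (hz3 : z₃ ∈ A) (hu3 : H.Adj u z₃) :
    (e2 Hs A₁ - 6 * A₁.card) + 2 * ((cnb (dl H {u}) z₁ z₃) \ lset A A₁ u z₃).card - 2 +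
      dd H u (lset A A₁ u z₃) ≤ e2 H A - 6 * A.card := by
  set L := lset A A₁ u z₃ with hL
  have hz1' := z1_mem hR (hC.sub hz1)
  have hLu : u ∉ L := by rw [hL, mem_lset]; exact fun h => h.2.1 rfl
  have hL3 : z₃ ∉ L := by rw [hL, mem_lset]; exact fun h => h.2.2.1 rfl
  have hL1 : z₁ ∉ L := by rw [hL, mem_lset]; exact fun h => h.2.2.2 hz1'
  have hLA : L ⊆ A := fun x hx => by rw [hL, mem_lset] at hx; exact hx.1
  have h1 := count_main H Hs A L u z₁ z₃ hu hz1 hz3 h13 hz hLu hL1 hL3 hLA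
  have h2 : e2 Hs A = e2 Hs A₁ := e2_eq_of_subset Hs A₁ A hR.sub
    (fun x hx hx1 y => hR.inact x (hC.sub hx) hx1 y)
  have h3 : Hs ≤ dl (mgV (dl H {u}) z₁ z₃) L := by
    intro x y h
    refine ⟨hR.le h, fun h4 => ?_, fun h4 => ?_⟩
    · exact avoid hC hR hu1 h (Finset.mem_insert_of_mem h4)
    · exact avoid hC hR hu1 h.symm (Finset.mem_insert_of_mem h4)
  have h4 := e2_mono h3 A
  have h5 := card_A hR hu hu1 hz3 hu3
  rw [← hL] at h5
  have h6 : (cnb (dl H {u}) z₁ z₃ \ L).card + (cnb (dl H {u}) z₁ z₃ ∩ L).card =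
      (cnb (dl H {u}) z₁ z₃).card := Finset.card_sdiff_add_card_inter _ _
  rw [hdeg] at h1
  unfold dd
  rw [h5]
  push_cast
  zify at h6
  push_cast at h1
  linarith

end

end Pool.Agent.Helper15.U5
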