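import Pool.Agent.Helper15.U5.Outcome

/-!
# The outcome lemmas (section 4) and their versions for section 5
-/

set_option autoImplicit false

namespace Pool.Agent.Helper15.U5

open SimpleGraph Finset
open scoped Classical

variable {V : Type} [Fintype V]
variable {η c₁ : ℝ} {H : SimpleGraph V} {S A : Finset V} {u z₁ z₂ z₃ : V} {Hs : SimpleGraph V}
  {A₁ : Finset V}

/-- The separation statement (3.2) at `u`. -/
def Sep1 (H : SimpleGraph V) (A : Finset V) (u z₁ z₂ z₃ : V) : Prop :=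
  ∀ X ⊆ A, z₂ ∈ X → u ∉ X → z₁ ∉ X → z₃ ∉ X → (H.induce (X : Set V)).Connected →
    (dl H (insert u X)).Reachable z₁ z₃ → ∀ x ∈ X, H.Adj u x → x = z₂

/-- The separation statement (3.3) at `u`. -/
def Sep3 (H : SimpleGraph V) (A : Finset V) (u z₁ x z₃ : V) : Prop :=
  ∀ X ⊆ A, x ∈ X → u ∉ X → z₁ ∉ X → z₃ ∉ X → (H.induce (X : Set V)).Connected →
    (dl H (insert u X)).Reachable z₁ z₃ → ∀ y ∈ X, ¬ H.Adj u y

/-- The component of a lost vertex `z` with all its properties. -/
lemma comp_lost (hC : Ctx η c₁ H S A) (hR : RedAt η c₁ H S A u z₁ z₃ Hs A₁) (hu : u ∈ A)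
    (hu1 : H.Adj u z₁) (hz1 : z₁ ∈ A) (hz3 : z₃ ∈ A) (hu3 : H.Adj u z₃) (z : V)
    (hz : z ∈ lset A A₁ u z₃) :
    ∃ X ⊆ lset A A₁ u z₃, z ∈ X ∧ X ⊆ A ∧ u ∉ X ∧ z₁ ∉ X ∧ z₃ ∉ X ∧
      (H.induce (X : Set V)).Connected ∧ (dl H (insert u X)).Reachable z₁ z₃ ∧
      (∀ a ∈ X, ∀ b ∈ lset A A₁ u z₃, b ∉ X → ¬ H.Adj a b) ∧
      (∀ a ∈ lset A A₁ u z₃ \ X, ∀ b ∈ lset A A₁ u z₃, b ∉ lset A A₁ u z₃ \ X → ¬ H.Adj a b) ∧
      dd H u (lset A A₁ u z₃) = dd H u X + dd H u (lset A A₁ u z₃ \ X) ∧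
      (lset A A₁ u z₃).card = X.card + (lset A A₁ u z₃ \ X).card := by
  have hz1' := z1_mem hR (hC.sub hz1)
  obtain ⟨X, hX, hzX, hcon, hcl⟩ := exists_comp H (lset A A₁ u z₃) z hz
  have hsub : X ⊆ A := fun x hx => by
    have := hX hx
    rw [mem_lset] at this
    exact this.1
  have hcl2 : ∀ a ∈ lset A A₁ u z₃ \ X, ∀ b ∈ lset A A₁ u z₃, b ∉ lset A A₁ u z₃ \ X →
      ¬ H.Adj a b := by
    intro a ha b hb hbX hab
    rw [Finset.mem_sdiff] at ha
    have hbX' : b ∈ X := by
      by_contra h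
      exact hbX (Finset.mem_sdiff.mpr ⟨hb, h⟩)
    exact hcl b hbX' a ha.1 ha.2 hab.symm
  have hunion : X ∪ (lset A A₁ u z₃ \ X) = lset A A₁ u z₃ := Finset.union_sdiff_of_subset hX
  refine ⟨X, hX, hzX, hsub, fun h => ?_, fun h => ?_, fun h => ?_, hcon, ?_, hcl, hcl2, ?_, ?_⟩
  · have := hX h
    rw [mem_lset] at this
    exact this.2.1 rfl
  · have := hX h
    rw [mem_lset] at this
    exact this.2.2.2 hz1'
  · have := hX h
    rw [mem_lset] at this
    exact this.2.2.1 rfl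
  · exact (reach_z hC hR hu hu1 hz1 hz3 hu3).mono (dl_mono (Finset.insert_subset_insert u hX))
  · conv_lhs => rw [← hunion]
    exact dd_union H u X _ Finset.disjoint_sdiff fun a ha b hb =>
      hcl a ha b (Finset.mem_sdiff.mp hb).1 (Finset.mem_sdiff.mp hb).2
  · conv_lhs => rw [← hunion]
    exact Finset.card_union_of_disjoint Finset.disjoint_sdiff

omit [Fintype V] in
/-- A closed set of lost vertices inside another one. -/
lemma closed_trans {L Y Y₁ : Finset V} (hY : ∀ a ∈ Y, ∀ b ∈ L, b ∉ Y → ¬ H.Adj a b)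
    (hY1 : Y₁ ⊆ Y) (h1 : ∀ a ∈ Y₁, ∀ b ∈ Y, b ∉ Y₁ → ¬ H.Adj a b) :
    ∀ a ∈ Y₁, ∀ b ∈ L, b ∉ Y₁ → ¬ H.Adj a b := by
  intro a ha b hb hb1
  by_cases h : b ∈ Y
  · exact h1 a ha b h hb1
  · exact hY a (hY1 ha) b hb h

/-- TYPE I -/
theorem typeI (hC : Ctx η c₁ H S A) (hn : c₁ < A.card)
    (hp : ((e2 H A : ℤ) : ℝ) - 6 * A.card < 2 * phi η c₁ A.card)
    (hu : u ∈ A) (hz1 : z₁ ∈ A) (hz2 : z₂ ∈ A) (hz3 : z₃ ∈ A) (hdeg : (nbs H u).card = 5)
    (hu1 : H.Adj u z₁) (hu2 : H.Adj u z₂) (hu3 : H.Adj u z₃) (h13 : z₁ ≠ z₃)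
    (h21 : H.Adj z₂ z₁) (h23 : H.Adj z₂ z₃) (hz : ¬ H.Adj z₁ z₃)
    (sep : Sep1 H A u z₁ z₂ z₃) (hout : out H S u ≤ 1) :
    OutI0 H A u z₁ z₂ z₃ ∨ OutI5 H A u z₁ z₂ z₃ ∨ (out H S u = 0 ∧ OutIX H S A u z₁ z₂ z₃) := by
  have hcst := hC.cst
  have hc := hcst.hc
  obtain ⟨Hs, A₁, hR⟩ := hC.red u z₁ z₃ hu hz1 hz3 hdeg hu1 hu3 h13 hz
  have hz1' := z1_mem hR (hC.sub hz1)
  set L := lset A A₁ u z₃ with hL
  have hcard := card_A hR hu hu1 hz3 hu3
  rw [← hL] at hcard
  have hC2 : z₂ ∈ cnb (dl H {u}) z₁ z₃ := by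
    rw [mem_cnb, dl_adj, dl_adj]
    simp only [Finset.mem_singleton]
    exact ⟨⟨h21.symm, hu1.ne', hu2.ne'⟩, h23.symm, hu3.ne', hu2.ne'⟩
  have hA1pos : 1 ≤ A₁.card := Finset.card_pos.mpr ⟨z₁, hz1'⟩
  -- survivors
  have hsurv : ∀ v ∈ A, v ≠ u → v ≠ z₁ → v ≠ z₃ → v ∉ L →
      5 + (if H.Adj u v then 1 else 0) + (if v ∈ cnb (dl H {u}) z₁ z₃ then 1 else 0) +
      (nbs H v ∩ L).card ≤ (nbs H v).card := by
    intro v hv hvu hv1 hv3 hvL
    have hvA : v ∈ A₁ := by
      rw [hL, mem_lset] at hvL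
      push Not at hvL
      exact hvL hv hvu hv3
    exact deg_ge hC hR hu1 h13 v hvA hv1
  by_cases hLe : L = ∅
  · left
    refine ⟨?_, ?_⟩
    · have := hsurv z₂ hz2 hu2.ne' h21.ne h23.ne (by rw [hLe]; exact Finset.notMem_empty _)
      rw [if_pos hu2, if_pos hC2] at this
      omega
    · intro z hzo
      rw [mem_oth] at hzo
      have := hsurv z hzo.2.1 hzo.1.ne' hzo.2.2.1 hzo.2.2.2.2
        (by rw [hLe]; exact Finset.notMem_empty _)
      rw [if_pos hzo.1] at this
      omega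
  have hLne : L.Nonempty := Finset.nonempty_iff_ne_empty.mpr hLe
  have hLcard : 1 ≤ L.card := Finset.card_pos.mpr hLne
  by_cases hA1 : 2 ≤ A₁.card
  · -- the case `n₁ ≥ 2`
    have hcount := count_ge hC hR hu hdeg hz h13 hu1 hz1 hz3 hu3
    rw [← hL] at hcount
    have hcountR : ((e2 Hs A₁ : ℤ) : ℝ) - 6 * A₁.card +
        2 * ((cnb (dl H {u}) z₁ z₃) \ L).card - 2 + dd H u L ≤ (e2 H A : ℤ) - 6 * A.card := by
      exact_mod_cast hcount
    have hpot := hR.pot
    have hddL := dd_ge hC hR hu hdeg hu1 hz1 hz3 hu3 L (subset_of_eq hL)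
      (fun a _ b hb hb' => absurd (hL ▸ hb) hb')
    -- all common neighbours are lost
    have hz2L : z₂ ∈ L := by
      by_contra h
      have h1 : 1 ≤ ((cnb (dl H {u}) z₁ z₃) \ L).card :=
        Finset.card_pos.mpr ⟨z₂, Finset.mem_sdiff.mpr ⟨hC2, h⟩⟩
      have h1' : (1 : ℝ) ≤ ((cnb (dl H {u}) z₁ z₃) \ L).card := by exact_mod_cast h1
      have h2 := g2 hcst hA1 hLcard
      rw [← hcard] at h2
      linarith
    obtain ⟨X, hX, hzX, hXA, huX, h1X, h3X, hcon, hreach, hcl, hcl2, hdd, hcardL⟩ :=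
      comp_lost hC hR hu hu1 hz1 hz3 hu3 z₂ (by rw [← hL]; exact hz2L)
    rw [← hL] at hX hcl hcl2 hdd hcardL
    have hnb := sep X hXA hzX huX h1X h3X hcon hreach
    have hXpos : 1 ≤ X.card := Finset.card_pos.mpr ⟨z₂, hzX⟩
    -- only one component
    have hY : L \ X = ∅ := by
      by_contra h
      have hYpos : 1 ≤ (L \ X).card := Finset.card_pos.mpr (Finset.nonempty_iff_ne_empty.mpr h)
      have h1 := dd_ge hC hR hu hdeg hu1 hz1 hz3 hu3 X hX hcl
      have h2 := dd_ge hC hR hu hdeg hu1 hz1 hz3 hu3 (L \ X) Finset.sdiff_subset hcl2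
      have h3 := g1 hcst hA1 hXpos hYpos
      rw [← hcardL, ← hcard] at h3
      have h4 : ((dd H u L : ℤ) : ℝ) = dd H u X + dd H u (L \ X) := by exact_mod_cast hdd
      have h5 : (0 : ℝ) ≤ ((cnb (dl H {u}) z₁ z₃) \ L).card := Nat.cast_nonneg _
      linarith
    have hLX : L = X := Finset.Subset.antisymm (Finset.sdiff_eq_empty_iff_subset.mp hY) hX
    have hfin : L = {z₂} ∧ (nbs H z₂).card = 5 := by
      by_contra h
      rw [hLX] at h
      have h1 := dd_big hC hR hu hu1 hz1 hz3 hu3 X hX hcl z₂ hzX hnb h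
      have h3 := g3 (x := L.card) hcst hA1
      rw [← hcard] at h3
      rw [← hLX] at h1
      have h5 : (0 : ℝ) ≤ ((cnb (dl H {u}) z₁ z₃) \ L).card := Nat.cast_nonneg _
      linarith
    right; left
    refine ⟨hfin.2, ?_, ?_⟩
    · intro z hzo
      rw [mem_oth] at hzo
      have := hsurv z hzo.2.1 hzo.1.ne' hzo.2.2.1 hzo.2.2.2.2
        (by rw [hfin.1, Finset.mem_singleton]; exact hzo.2.2.2.1)
      rw [if_pos hzo.1] at this
      omega
    · intro x hx hx2 hxu hx1 hx3
      have hxL : x ∉ L := by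
        rw [hfin.1, Finset.mem_singleton]
        exact hx2.ne'
      have := hsurv x hx hxu hx1 hx3 hxL
      have h1 : 1 ≤ (nbs H x ∩ L).card := Finset.card_pos.mpr
        ⟨z₂, by
          rw [Finset.mem_inter, mem_nbs, hfin.1, Finset.mem_singleton]
          exact ⟨hx2.symm, rfl⟩⟩
      omega
  · -- the case `n₁ = 1`
    have hA1' : A₁.card = 1 := by omega
    obtain ⟨hcount, ho1, ho3, ho5⟩ := one_case hC hR hu hdeg hz h13 hu1 hz1 hz3 hu3 hA1'
    rw [← hL] at hcount
    have hcountR : ((e2 H A : ℤ) : ℝ) - 6 * A.card =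
        2 * (out H S z₁ + out H S z₃) - 8 + dd H u L := by
      exact_mod_cast hcount
    have hA1eq : A₁ = {z₁} := by
      obtain ⟨y, hy⟩ := Finset.card_eq_one.mp hA1'
      rw [hy] at hz1'
      rw [hy, Finset.mem_singleton.mp hz1']
    have hLmem : ∀ x, x ∈ L ↔ x ∈ A ∧ x ≠ u ∧ x ≠ z₃ ∧ x ≠ z₁ := by
      intro x
      rw [hL, mem_lset, hA1eq, Finset.mem_singleton]
    have hz2L : z₂ ∈ L := (hLmem z₂).mpr ⟨hz2, hu2.ne', h23.ne, h21.ne⟩
    obtain ⟨X, hX, hzX, hXA, huX, h1X, h3X, hcon, hreach, hcl, hcl2, hdd, hcardL⟩ :=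
      comp_lost hC hR hu hu1 hz1 hz3 hu3 z₂ (by rw [← hL]; exact hz2L)
    rw [← hL] at hX hcl hcl2 hdd hcardL
    have hddR : ((dd H u L : ℤ) : ℝ) = dd H u X + dd H u (L \ X) := by exact_mod_cast hdd
    have hnb := sep X hXA hzX huX h1X h3X hcon hreach
    have hXpos : 1 ≤ X.card := Finset.card_pos.mpr ⟨z₂, hzX⟩
    have hothY : oth H A u z₁ z₂ z₃ ⊆ L \ X := by
      intro z hzo
      rw [mem_oth] at hzo
      rw [Finset.mem_sdiff]
      refine ⟨(hLmem z).mpr ⟨hzo.2.1, hzo.1.ne', hzo.2.2.2.2, hzo.2.2.1⟩, fun h => ?_⟩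
      exact hzo.2.2.2.1 (hnb z h hzo.1)
    -- the number of the other neighbours
    have hnbA : nbs H u ∩ S = nbs H u ∩ A := by
      ext x
      simp only [Finset.mem_inter, mem_nbs]
      constructor
      · rintro ⟨h1, h2⟩
        refine ⟨h1, ?_⟩
        by_contra h3
        exact hC.inact x h2 h3 u h1.symm
      · exact fun h => ⟨h.1, hC.sub h.2⟩
    have hothcard : (oth H A u z₁ z₂ z₃).card + 3 + out H S u = 5 := by
      have h1 : (nbs H u \ S).card + (nbs H u ∩ S).card = (nbs H u).card :=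
        Finset.card_sdiff_add_card_inter _ _
      have h2 : nbs H u ∩ A = insert z₁ (insert z₂ (insert z₃ (oth H A u z₁ z₂ z₃))) := by
        ext x
        simp only [Finset.mem_inter, mem_nbs, Finset.mem_insert, mem_oth]
        constructor
        · rintro ⟨h1, h2⟩
          by_cases e1 : x = z₁
          · exact Or.inl e1
          by_cases e2 : x = z₂
          · exact Or.inr (Or.inl e2)
          by_cases e3 : x = z₃
          · exact Or.inr (Or.inr (Or.inl e3))
          exact Or.inr (Or.inr (Or.inr ⟨h1, h2, e1, e2, e3⟩))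
        · rintro (rfl | rfl | rfl | h)
          · exact ⟨hu1, hz1⟩
          · exact ⟨hu2, hz2⟩
          · exact ⟨hu3, hz3⟩
          · exact ⟨h.1, h.2.1⟩
      have h3 : (nbs H u ∩ A).card = (oth H A u z₁ z₂ z₃).card + 3 := by
        rw [h2, Finset.card_insert_of_notMem, Finset.card_insert_of_notMem,
          Finset.card_insert_of_notMem]
        · rw [mem_oth]; exact fun h => h.2.2.2.2 rfl
        · rw [Finset.mem_insert, mem_oth]
          rintro (h | h)
          · exact h23.ne h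
          · exact h.2.2.2.1 rfl
        · rw [Finset.mem_insert, Finset.mem_insert, mem_oth]
          rintro (h | h | h)
          · exact h21.ne h.symm
          · exact h13 h
          · exact h.2.2.1 rfl
      rw [hnbA, h3, hdeg] at h1
      unfold out
      omega
    have hYpos : 1 ≤ (L \ X).card := by
      have := Finset.card_le_card hothY
      omega
    have hYne : (L \ X).Nonempty := Finset.card_pos.mp hYpos
    have hddX := dd_ge hC hR hu hdeg hu1 hz1 hz3 hu3 X hX hcl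
    have hddY := dd_ge hC hR hu hdeg hu1 hz1 hz3 hu3 (L \ X) Finset.sdiff_subset hcl2
    have ho5R : (5 : ℝ) ≤ out H S z₁ + out H S z₃ := by exact_mod_cast ho5
    -- `Y` is connected
    obtain ⟨y, hy⟩ := hYne
    obtain ⟨Y₁, hY1, hyY1, _, hclY⟩ := exists_comp H (L \ X) y hy
    have hcard3 : A.card = X.card + (L \ X).card + 3 := by omega
    have hYconn : (L \ X) \ Y₁ = ∅ := by
      by_contra h
      have hY2pos : 1 ≤ ((L \ X) \ Y₁).card :=
        Finset.card_pos.mpr (Finset.nonempty_iff_ne_empty.mpr h)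
      have hY1pos : 1 ≤ Y₁.card := Finset.card_pos.mpr ⟨y, hyY1⟩
      have c1 := closed_trans hcl2 hY1 hclY
      have c2 : ∀ a ∈ (L \ X) \ Y₁, ∀ b ∈ L, b ∉ (L \ X) \ Y₁ → ¬ H.Adj a b :=
        closed_trans hcl2 Finset.sdiff_subset (fun a ha b hb hb' hab => by
          rw [Finset.mem_sdiff] at ha
          have : b ∈ Y₁ := by
            by_contra h'
            exact hb' (Finset.mem_sdiff.mpr ⟨hb, h'⟩)
          exact hclY b this a ha.1 ha.2 hab.symm)
      have d1 := dd_ge hC hR hu hdeg hu1 hz1 hz3 hu3 Y₁ (hY1.trans Finset.sdiff_subset) c1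
      have d2 := dd_ge hC hR hu hdeg hu1 hz1 hz3 hu3 ((L \ X) \ Y₁)
        (Finset.sdiff_subset.trans Finset.sdiff_subset) c2
      have hun : Y₁ ∪ ((L \ X) \ Y₁) = L \ X := Finset.union_sdiff_of_subset hY1
      have hddY' : dd H u (L \ X) = dd H u Y₁ + dd H u ((L \ X) \ Y₁) := by
        conv_lhs => rw [← hun]
        exact dd_union H u _ _ Finset.disjoint_sdiff fun a ha b hb =>
          hclY a ha b (Finset.mem_sdiff.mp hb).1 (Finset.mem_sdiff.mp hb).2
      have hcY : (L \ X).card = Y₁.card + ((L \ X) \ Y₁).card := by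
        conv_lhs => rw [← hun]
        exact Finset.card_union_of_disjoint Finset.disjoint_sdiff
      have h3 := g5 hcst hXpos hY1pos hY2pos
      have hA' : A.card = X.card + (Y₁.card + ((L \ X) \ Y₁).card) + 3 := by omega
      rw [← hA'] at h3
      have hddY'' : ((dd H u (L \ X) : ℤ) : ℝ) = dd H u Y₁ + dd H u ((L \ X) \ Y₁) := by
        exact_mod_cast hddY'
      linarith
    -- `X` is small
    have hXfin : X = {z₂} ∧ (nbs H z₂).card = 5 := by
      by_contra h
      have h1 := dd_big hC hR hu hu1 hz1 hz3 hu3 X hX hcl z₂ hzX hnb h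
      have h3 := g4 (x := X.card) hcst hYpos
      rw [← hcard3] at h3
      linarith
    have hXone : X.card = 1 := by rw [hXfin.1]; simp
    -- the sum is five
    have hsum5 : out H S z₁ + out H S z₃ = 5 := by
      by_contra h
      have h6 : 6 ≤ out H S z₁ + out H S z₃ := by omega
      have h6R : (6 : ℝ) ≤ out H S z₁ + out H S z₃ := by exact_mod_cast h6
      have h3 := g6 hcst hYpos
      rw [hXone] at hcard3 hddX
      have e1 : A.card = 1 + (L \ X).card + 3 := by omega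
      rw [← e1] at h3
      have e2 : phi η c₁ (1 + 1) = 3 := by
        rw [phi_of_two_le _ _ (by norm_num)]
        have : max (((1 + 1 : ℕ) : ℝ) - c₁) 0 = 0 := max_eq_right (by push_cast; linarith)
        rw [this]; ring
      rw [e2] at hddX
      linarith
    -- `u` is deep
    have hou : out H S u = 0 := by
      by_contra h
      have hou1 : out H S u = 1 := by omega
      have hoth1 : (oth H A u z₁ z₂ z₃).card = 1 := by omega
      obtain ⟨z₄, hz4⟩ := Finset.card_eq_one.mp hoth1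
      have hz4m : z₄ ∈ oth H A u z₁ z₂ z₃ := by rw [hz4]; exact Finset.mem_singleton_self _
      have hnbY : ∀ x ∈ L \ X, H.Adj u x → x = z₄ := by
        intro x hx hux
        have : x ∈ oth H A u z₁ z₂ z₃ := by
          rw [Finset.mem_sdiff] at hx
          have hxL := (hLmem x).mp hx.1
          rw [mem_oth]
          exact ⟨hux, hxL.1, hxL.2.2.2, fun h => hx.2 (h ▸ hzX), hxL.2.2.1⟩
        rw [hz4] at this
        exact Finset.mem_singleton.mp this
      have hYnot : ¬ (L \ X = {z₄} ∧ (nbs H z₄).card = 5) := by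
        rintro ⟨h1, _⟩
        have h2 : (L \ X).card = 1 := by rw [h1]; simp
        rw [h2, hXone] at hcard3
        rw [hcard3] at hn
        push_cast at hn
        linarith
      have h1 := dd_big hC hR hu hu1 hz1 hz3 hu3 (L \ X) Finset.sdiff_subset hcl2 z₄
        (hothY hz4m) hnbY hYnot
      have h3 := g4 (x := (L \ X).card) hcst hXpos
      have e1 : (L \ X).card + X.card + 3 = A.card := by omega
      rw [e1] at h3
      linarith
    right; right
    refine ⟨hou, hXfin.2, ?_, ?_, ho1, ho3, hsum5⟩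
    · intro x hx hx2
      by_contra hcon'
      push Not at hcon'
      have hxL : x ∈ L := (hLmem x).mpr ⟨hx, hcon'.1, hcon'.2.2, hcon'.2.1⟩
      refine hcl z₂ hzX x hxL ?_ hx2
      rw [hXfin.1, Finset.mem_singleton]
      exact hx2.ne'
    · -- `z₂` has exactly three neighbours in `S`
      have h1 : nbs H z₂ ∩ S = {u, z₁, z₃} := by
        ext x
        simp only [Finset.mem_inter, mem_nbs, Finset.mem_insert, Finset.mem_singleton]
        constructor
        · rintro ⟨hx2, hxS⟩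
          have hxA : x ∈ A := by
            by_contra h3
            exact hC.inact x hxS h3 z₂ hx2.symm
          by_contra hcon'
          push Not at hcon'
          have hxL : x ∈ L := (hLmem x).mpr ⟨hxA, hcon'.1, hcon'.2.2, hcon'.2.1⟩
          refine hcl z₂ hzX x hxL ?_ hx2
          rw [hXfin.1, Finset.mem_singleton]
          exact hx2.ne'
        · rintro (rfl | rfl | rfl)
          · exact ⟨hu2.symm, hC.sub hu⟩
          · exact ⟨h21, hC.sub hz1⟩
          · exact ⟨h23, hC.sub hz3⟩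
      have h2 : (nbs H z₂ \ S).card + (nbs H z₂ ∩ S).card = (nbs H z₂).card :=
        Finset.card_sdiff_add_card_inter _ _
      have h3 : ({u, z₁, z₃} : Finset V).card = 3 := by
        rw [Finset.card_insert_of_notMem, Finset.card_insert_of_notMem, Finset.card_singleton]
        · rw [Finset.mem_singleton]; exact h13
        · rw [Finset.mem_insert, Finset.mem_singleton]
          rintro (h | h)
          · exact hu1.ne h
          · exact hu3.ne h
      rw [h1, h3, hXfin.2] at h2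
      unfold out
      omega

end Pool.Agent.Helper15.U5
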