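import Pool.Agent.Helper15.U5.TypeI

/-!
# TYPE III and the versions for section 5
-/

set_option autoImplicit false

namespace Pool.Agent.Helper15.U5

open SimpleGraph Finset
open scoped Classical

variable {V : Type} [Fintype V]
variable {η c₁ : ℝ} {H : SimpleGraph V} {S A : Finset V} {u z₁ z₂ z₃ : V} {Hs : SimpleGraph V}
  {A₁ : Finset V}

lemma mem_cnb_of (hu1 : H.Adj u z₁) (hu3 : H.Adj u z₃) {x : V} (hx1 : H.Adj x z₁)
    (hx3 : H.Adj x z₃) (hxu : x ≠ u) : x ∈ cnb (dl H {u}) z₁ z₃ := by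
  rw [mem_cnb, dl_adj, dl_adj]
  simp only [Finset.mem_singleton]
  exact ⟨⟨hx1.symm, hu1.ne', hxu⟩, hx3.symm, hu3.ne', hxu⟩

/-- If `u` is deep then all its neighbours are in `A`. -/
lemma nb_mem_of_out (hC : Ctx η c₁ H S A) (hout : out H S u = 0) {x : V} (hx : H.Adj u x) :
    x ∈ A := by
  have h1 : x ∈ S := by
    by_contra h
    unfold out at hout
    rw [Finset.card_eq_zero] at hout
    have : x ∈ nbs H u \ S := Finset.mem_sdiff.mpr ⟨(mem_nbs H u x).mpr hx, h⟩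
    rw [hout] at this
    exact Finset.notMem_empty _ this
  by_contra h
  exact hC.inact x h1 h u hx.symm

/-- TYPE III -/
theorem typeIII (hC : Ctx η c₁ H S A)
    (hp : ((e2 H A : ℤ) : ℝ) - 6 * A.card < 2 * phi η c₁ A.card) {x : V}
    (hu : u ∈ A) (hz1 : z₁ ∈ A) (hx : x ∈ A) (hz3 : z₃ ∈ A) (hdeg : (nbs H u).card = 5)
    (hu1 : H.Adj u z₁) (hu3 : H.Adj u z₃) (h13 : z₁ ≠ z₃) (hxu : x ≠ u)
    (hx1 : H.Adj x z₁) (hx3 : H.Adj x z₃) (hz : ¬ H.Adj z₁ z₃)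
    (sep : Sep3 H A u z₁ x z₃) (hout : out H S u = 0) :
    6 ≤ (nbs H x).card ∧ ∀ z, H.Adj u z → z ≠ z₁ → z ≠ z₃ → 6 ≤ (nbs H z).card := by
  have hcst := hC.cst
  have hc := hcst.hc
  obtain ⟨Hs, A₁, hR⟩ := hC.red u z₁ z₃ hu hz1 hz3 hdeg hu1 hu3 h13 hz
  have hz1' := z1_mem hR (hC.sub hz1)
  set L := lset A A₁ u z₃ with hL
  have hcard := card_A hR hu hu1 hz3 hu3
  rw [← hL] at hcard
  have hC2 : x ∈ cnb (dl H {u}) z₁ z₃ := mem_cnb_of hu1 hu3 hx1 hx3 hxu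
  have hA1pos : 1 ≤ A₁.card := Finset.card_pos.mpr ⟨z₁, hz1'⟩
  have hsurv : ∀ v ∈ A, v ≠ u → v ≠ z₁ → v ≠ z₃ → v ∉ L →
      5 + (if H.Adj u v then 1 else 0) + (if v ∈ cnb (dl H {u}) z₁ z₃ then 1 else 0) +
      (nbs H v ∩ L).card ≤ (nbs H v).card := by
    intro v hv hvu hv1 hv3 hvL
    have hvA : v ∈ A₁ := by
      rw [hL, mem_lset] at hvL
      push Not at hvL
      exact hvL hv hvu hv3
    exact deg_ge hC hR hu1 h13 v hvA hv1
  by_cases hLe : L = ∅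
  · refine ⟨?_, ?_⟩
    · have := hsurv x hx hxu hx1.ne hx3.ne (by rw [hLe]; exact Finset.notMem_empty _)
      rw [if_pos hC2] at this
      omega
    · intro z huz hzz1 hzz3
      have := hsurv z (nb_mem_of_out hC hout huz) huz.ne' hzz1 hzz3
        (by rw [hLe]; exact Finset.notMem_empty _)
      rw [if_pos huz] at this
      omega
  exfalso
  have hLne : L.Nonempty := Finset.nonempty_iff_ne_empty.mpr hLe
  have hLcard : 1 ≤ L.card := Finset.card_pos.mpr hLne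
  by_cases hA1 : 2 ≤ A₁.card
  · have hcount := count_ge hC hR hu hdeg hz h13 hu1 hz1 hz3 hu3
    rw [← hL] at hcount
    have hcountR : ((e2 Hs A₁ : ℤ) : ℝ) - 6 * A₁.card +
        2 * ((cnb (dl H {u}) z₁ z₃) \ L).card - 2 + dd H u L ≤ (e2 H A : ℤ) - 6 * A.card := by
      exact_mod_cast hcount
    have hpot := hR.pot
    have hddL := dd_ge hC hR hu hdeg hu1 hz1 hz3 hu3 L (subset_of_eq hL)
      (fun a _ b hb hb' => absurd (hL ▸ hb) hb')
    have hxL : x ∈ L := by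
      by_contra h
      have h1 : 1 ≤ ((cnb (dl H {u}) z₁ z₃) \ L).card :=
        Finset.card_pos.mpr ⟨x, Finset.mem_sdiff.mpr ⟨hC2, h⟩⟩
      have h1' : (1 : ℝ) ≤ ((cnb (dl H {u}) z₁ z₃) \ L).card := by exact_mod_cast h1
      have h2 := g2 hcst hA1 hLcard
      rw [← hcard] at h2
      linarith
    obtain ⟨X, hX, hxX, hXA, huX, h1X, h3X, hcon, hreach, hcl, hcl2, hdd, hcardL⟩ :=
      comp_lost hC hR hu hu1 hz1 hz3 hu3 x (by rw [← hL]; exact hxL)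
    rw [← hL] at hX hcl hcl2 hdd hcardL
    have hnb := sep X hXA hxX huX h1X h3X hcon hreach
    have hXpos : 1 ≤ X.card := Finset.card_pos.mpr ⟨x, hxX⟩
    have hY : L \ X = ∅ := by
      by_contra h
      have hYpos : 1 ≤ (L \ X).card := Finset.card_pos.mpr (Finset.nonempty_iff_ne_empty.mpr h)
      have h1 := dd_ge hC hR hu hdeg hu1 hz1 hz3 hu3 X hX hcl
      have h2 := dd_ge hC hR hu hdeg hu1 hz1 hz3 hu3 (L \ X) Finset.sdiff_subset hcl2
      have h3 := g1 hcst hA1 hXpos hYpos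
      rw [← hcardL, ← hcard] at h3
      have h4 : ((dd H u L : ℤ) : ℝ) = dd H u X + dd H u (L \ X) := by exact_mod_cast hdd
      have h5 : (0 : ℝ) ≤ ((cnb (dl H {u}) z₁ z₃) \ L).card := Nat.cast_nonneg _
      linarith
    have hLX : L = X := Finset.Subset.antisymm (Finset.sdiff_eq_empty_iff_subset.mp hY) hX
    have h1 := dd_big0 hC hR hu hu1 hz1 hz3 hu3 X hX hcl x hxX hnb
    have h3 := g3 (x := L.card) hcst hA1
    rw [← hcard] at h3
    rw [← hLX] at h1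
    have h5 : (0 : ℝ) ≤ ((cnb (dl H {u}) z₁ z₃) \ L).card := Nat.cast_nonneg _
    linarith
  · have hA1' : A₁.card = 1 := by omega
    obtain ⟨hcount, ho1, ho3, ho5⟩ := one_case hC hR hu hdeg hz h13 hu1 hz1 hz3 hu3 hA1'
    rw [← hL] at hcount
    have hcountR : ((e2 H A : ℤ) : ℝ) - 6 * A.card =
        2 * (out H S z₁ + out H S z₃) - 8 + dd H u L := by
      exact_mod_cast hcount
    have hA1eq : A₁ = {z₁} := by
      obtain ⟨y, hy⟩ := Finset.card_eq_one.mp hA1'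
      rw [hy] at hz1'
      rw [hy, Finset.mem_singleton.mp hz1']
    have hLmem : ∀ x, x ∈ L ↔ x ∈ A ∧ x ≠ u ∧ x ≠ z₃ ∧ x ≠ z₁ := by
      intro x
      rw [hL, mem_lset, hA1eq, Finset.mem_singleton]
    have hxL : x ∈ L := (hLmem x).mpr ⟨hx, hxu, hx3.ne, hx1.ne⟩
    obtain ⟨X, hX, hxX, hXA, huX, h1X, h3X, hcon, hreach, hcl, hcl2, hdd, hcardL⟩ :=
      comp_lost hC hR hu hu1 hz1 hz3 hu3 x (by rw [← hL]; exact hxL)
    rw [← hL] at hX hcl hcl2 hdd hcardL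
    have hddR : ((dd H u L : ℤ) : ℝ) = dd H u X + dd H u (L \ X) := by exact_mod_cast hdd
    have hnb := sep X hXA hxX huX h1X h3X hcon hreach
    have hYpos : 1 ≤ (L \ X).card := by
      -- a third neighbour of `u`
      have h1 : ¬ nbs H u ⊆ {z₁, z₃} := by
        intro h
        have h2 := Finset.card_le_card h
        have h3 : ({z₁, z₃} : Finset V).card ≤ 2 := Finset.card_le_two
        omega
      rw [Finset.not_subset] at h1
      obtain ⟨z, hz', hzn⟩ := h1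
      rw [mem_nbs] at hz'
      rw [Finset.mem_insert, Finset.mem_singleton, not_or] at hzn
      refine Finset.card_pos.mpr ⟨z, Finset.mem_sdiff.mpr ⟨(hLmem z).mpr
        ⟨nb_mem_of_out hC hout hz', hz'.ne', hzn.2, hzn.1⟩, fun h => hnb z h hz'⟩⟩
    have hddY := dd_ge hC hR hu hdeg hu1 hz1 hz3 hu3 (L \ X) Finset.sdiff_subset hcl2
    have h1 := dd_big0 hC hR hu hu1 hz1 hz3 hu3 X hX hcl x hxX hnb
    have h3 := g4 (x := X.card) hcst hYpos
    have hA' : A.card = X.card + (L \ X).card + 3 := by omega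
    rw [← hA'] at h3
    have ho5R : (5 : ℝ) ≤ out H S z₁ + out H S z₃ := by exact_mod_cast ho5
    linarith

/-- Section 5, TYPE I: a vertex `u` of degree five with two consecutive triangles and another
neighbour in `A`. -/
theorem p3_typeI (hC : Ctx η c₁ H S A)
    (hu : u ∈ A) (hz1 : z₁ ∈ A) (hz2 : z₂ ∈ A) (hz3 : z₃ ∈ A) (hdeg : (nbs H u).card = 5)
    (hu1 : H.Adj u z₁) (hu2 : H.Adj u z₂) (hu3 : H.Adj u z₃) (h13 : z₁ ≠ z₃)
    (h21 : H.Adj z₂ z₁) (h23 : H.Adj z₂ z₃) (hz : ¬ H.Adj z₁ z₃)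
    (sep : Sep1 H A u z₁ z₂ z₃) (hoth : (oth H A u z₁ z₂ z₃).Nonempty) :
    6 ≤ e2 H A - 6 * A.card := by
  have hcst := hC.cst
  obtain ⟨Hs, A₁, hR⟩ := hC.red u z₁ z₃ hu hz1 hz3 hdeg hu1 hu3 h13 hz
  have hz1' := z1_mem hR (hC.sub hz1)
  set L := lset A A₁ u z₃ with hL
  have hC2 : z₂ ∈ cnb (dl H {u}) z₁ z₃ := mem_cnb_of hu1 hu3 h21 h23 hu2.ne'
  have hA1pos : 1 ≤ A₁.card := Finset.card_pos.mpr ⟨z₁, hz1'⟩
  have hge : ∀ X ⊆ L, (∀ a ∈ X, ∀ b ∈ L, b ∉ X → ¬ H.Adj a b) → X.Nonempty →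
      (2 : ℝ) ≤ dd H u X := by
    intro X hX hcl hne
    have h1 := dd_ge hC hR hu hdeg hu1 hz1 hz3 hu3 X hX hcl
    have h2 : 1 ≤ X.card := Finset.card_pos.mpr hne
    have h3 := phi_ge_three hcst (n := X.card + 1) (by omega)
    linarith
  by_cases hA1 : 2 ≤ A₁.card
  · have hcount := count_ge hC hR hu hdeg hz h13 hu1 hz1 hz3 hu3
    rw [← hL] at hcount
    have hpot := hR.pot
    have h3 := phi_ge_three hcst hA1
    have h6 : (6 : ℝ) ≤ ((e2 Hs A₁ - 6 * A₁.card : ℤ) : ℝ) := by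
      push_cast
      linarith
    have h6' : 6 ≤ e2 Hs A₁ - 6 * A₁.card := by exact_mod_cast h6
    by_cases hLe : L = ∅
    · have h1 : 1 ≤ ((cnb (dl H {u}) z₁ z₃) \ L).card :=
        Finset.card_pos.mpr ⟨z₂, Finset.mem_sdiff.mpr ⟨hC2, by rw [hLe]; exact Finset.notMem_empty _⟩⟩
      have h2 : dd H u L = 0 := by rw [hLe]; exact dd_empty H u
      omega
    · have h1 := hge L (Finset.Subset.refl _) (fun a _ b hb hb' => absurd hb hb')
        (Finset.nonempty_iff_ne_empty.mpr hLe)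
      have h1' : 2 ≤ dd H u L := by exact_mod_cast h1
      omega
  · have hA1' : A₁.card = 1 := by omega
    obtain ⟨hcount, ho1, ho3, ho5⟩ := one_case hC hR hu hdeg hz h13 hu1 hz1 hz3 hu3 hA1'
    rw [← hL] at hcount
    have hA1eq : A₁ = {z₁} := by
      obtain ⟨y, hy⟩ := Finset.card_eq_one.mp hA1'
      rw [hy] at hz1'
      rw [hy, Finset.mem_singleton.mp hz1']
    have hLmem : ∀ x, x ∈ L ↔ x ∈ A ∧ x ≠ u ∧ x ≠ z₃ ∧ x ≠ z₁ := by
      intro x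
      rw [hL, mem_lset, hA1eq, Finset.mem_singleton]
    have hz2L : z₂ ∈ L := (hLmem z₂).mpr ⟨hz2, hu2.ne', h23.ne, h21.ne⟩
    obtain ⟨X, hX, hzX, hXA, huX, h1X, h3X, hcon, hreach, hcl, hcl2, hdd, hcardL⟩ :=
      comp_lost hC hR hu hu1 hz1 hz3 hu3 z₂ (by rw [← hL]; exact hz2L)
    rw [← hL] at hX hcl hcl2 hdd hcardL
    have hnb := sep X hXA hzX huX h1X h3X hcon hreach
    have hYne : (L \ X).Nonempty := by
      obtain ⟨z, hz'⟩ := hoth
      rw [mem_oth] at hz'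
      exact ⟨z, Finset.mem_sdiff.mpr ⟨(hLmem z).mpr
        ⟨hz'.2.1, hz'.1.ne', hz'.2.2.2.2, hz'.2.2.1⟩,
        fun h => hz'.2.2.2.1 (hnb z h hz'.1)⟩⟩
    have h1 := hge X hX hcl ⟨z₂, hzX⟩
    have h2 := hge (L \ X) Finset.sdiff_subset hcl2 hYne
    have h1' : 2 ≤ dd H u X := by exact_mod_cast h1
    have h2' : 2 ≤ dd H u (L \ X) := by exact_mod_cast h2
    omega

/-- Section 5, TYPE III. -/
theorem p3_typeIII (hC : Ctx η c₁ H S A) {x : V}
    (hu : u ∈ A) (hz1 : z₁ ∈ A) (hx : x ∈ A) (hz3 : z₃ ∈ A) (hdeg : (nbs H u).card = 5)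
    (hu1 : H.Adj u z₁) (hu3 : H.Adj u z₃) (h13 : z₁ ≠ z₃) (hxu : x ≠ u)
    (hx1 : H.Adj x z₁) (hx3 : H.Adj x z₃) (hz : ¬ H.Adj z₁ z₃)
    (sep : Sep3 H A u z₁ x z₃) : 6 ≤ e2 H A - 6 * A.card := by
  have hcst := hC.cst
  have hc := hcst.hc
  obtain ⟨Hs, A₁, hR⟩ := hC.red u z₁ z₃ hu hz1 hz3 hdeg hu1 hu3 h13 hz
  have hz1' := z1_mem hR (hC.sub hz1)
  set L := lset A A₁ u z₃ with hL
  have hC2 : x ∈ cnb (dl H {u}) z₁ z₃ := mem_cnb_of hu1 hu3 hx1 hx3 hxu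
  have hA1pos : 1 ≤ A₁.card := Finset.card_pos.mpr ⟨z₁, hz1'⟩
  have hge : ∀ X ⊆ L, (∀ a ∈ X, ∀ b ∈ L, b ∉ X → ¬ H.Adj a b) → X.Nonempty →
      (2 : ℝ) ≤ dd H u X := by
    intro X hX hcl hne
    have h1 := dd_ge hC hR hu hdeg hu1 hz1 hz3 hu3 X hX hcl
    have h2 : 1 ≤ X.card := Finset.card_pos.mpr hne
    have h3 := phi_ge_three hcst (n := X.card + 1) (by omega)
    linarith
  by_cases hA1 : 2 ≤ A₁.card
  · have hcount := count_ge hC hR hu hdeg hz h13 hu1 hz1 hz3 hu3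
    rw [← hL] at hcount
    have hpot := hR.pot
    have h3 := phi_ge_three hcst hA1
    have h6 : (6 : ℝ) ≤ ((e2 Hs A₁ - 6 * A₁.card : ℤ) : ℝ) := by
      push_cast
      linarith
    have h6' : 6 ≤ e2 Hs A₁ - 6 * A₁.card := by exact_mod_cast h6
    by_cases hLe : L = ∅
    · have h1 : 1 ≤ ((cnb (dl H {u}) z₁ z₃) \ L).card :=
        Finset.card_pos.mpr ⟨x, Finset.mem_sdiff.mpr ⟨hC2, by rw [hLe]; exact Finset.notMem_empty _⟩⟩
      have h2 : dd H u L = 0 := by rw [hLe]; exact dd_empty H u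
      omega
    · have h1 := hge L (Finset.Subset.refl _) (fun a _ b hb hb' => absurd hb hb')
        (Finset.nonempty_iff_ne_empty.mpr hLe)
      have h1' : 2 ≤ dd H u L := by exact_mod_cast h1
      omega
  · have hA1' : A₁.card = 1 := by omega
    obtain ⟨hcount, ho1, ho3, ho5⟩ := one_case hC hR hu hdeg hz h13 hu1 hz1 hz3 hu3 hA1'
    rw [← hL] at hcount
    have hA1eq : A₁ = {z₁} := by
      obtain ⟨y, hy⟩ := Finset.card_eq_one.mp hA1'
      rw [hy] at hz1'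
      rw [hy, Finset.mem_singleton.mp hz1']
    have hLmem : ∀ x, x ∈ L ↔ x ∈ A ∧ x ≠ u ∧ x ≠ z₃ ∧ x ≠ z₁ := by
      intro x
      rw [hL, mem_lset, hA1eq, Finset.mem_singleton]
    have hxL : x ∈ L := (hLmem x).mpr ⟨hx, hxu, hx3.ne, hx1.ne⟩
    obtain ⟨X, hX, hxX, hXA, huX, h1X, h3X, hcon, hreach, hcl, hcl2, hdd, hcardL⟩ :=
      comp_lost hC hR hu hu1 hz1 hz3 hu3 x (by rw [← hL]; exact hxL)
    rw [← hL] at hX hcl hcl2 hdd hcardL
    have hnb := sep X hXA hxX huX h1X h3X hcon hreach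
    have h1 := dd_big0 hC hR hu hu1 hz1 hz3 hu3 X hX hcl x hxX hnb
    have h2 : (0 : ℝ) ≤ η * max ((X.card : ℝ) - c₁) 0 := by
      have := hcst.hη
      positivity
    have h3 : (4 : ℝ) ≤ ((dd H u X : ℤ) : ℝ) := by linarith
    have h3' : 4 ≤ dd H u X := by exact_mod_cast h3
    have h4 : 0 ≤ dd H u (L \ X) := by
      by_cases h : L \ X = ∅
      · rw [h, dd_empty]
      · have h5 := hge (L \ X) Finset.sdiff_subset hcl2 (Finset.nonempty_iff_ne_empty.mpr h)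
        have h5' : 2 ≤ dd H u (L \ X) := by exact_mod_cast h5
        omega
    omega

end Pool.Agent.Helper15.U5
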